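import Pool.Agent.TH432.TG.Defs

set_option linter.unusedSectionVars false
set_option linter.unusedSimpArgs false

open Real Set MeasureTheory
open scoped ContDiff Topology

namespace Pool.Agent.TH432.TG

variable {F : Type} [Fintype F] [DecidableEq F] {n : ℕ} {ν : F → Fin n → ℤ} {K : Set (Finset F)}
  {κ : F → ℝ} {Ψ : (F → ℂ) → ℝ}

lemma isOpen_Om (K : Set (Finset F)) : IsOpen (Om K) := by
  have h : Om K = ⋃ σ ∈ K, ⋂ i ∈ {i : F | i ∉ σ}, {z : F → ℂ | z i ≠ 0} := by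
    ext z
    simp only [Om, mem_iUnion, mem_iInter, Set.mem_setOf_eq, exists_prop]
    constructor
    · rintro ⟨σ, hσ, h⟩
      exact ⟨σ, hσ, fun i hi h0 => hi (h i h0)⟩
    · rintro ⟨σ, hσ, h⟩
      exact ⟨σ, hσ, fun i h0 => by_contra fun hi => h i hi h0⟩
  rw [h]
  refine isOpen_biUnion fun σ _ => ?_
  refine (Set.toFinite _).isOpen_biInter fun i _ => ?_
  exact isOpen_ne_fun (continuous_apply i) continuous_const

lemma IsPotential.cd (h : IsPotential ν K κ Ψ) {z : F → ℂ} (hz : z ∈ Om K) : ContDiffAt ℝ ∞ Ψ z :=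
  h.smooth.contDiffAt ((isOpen_Om K).mem_nhds hz)

lemma IsPotential.cd1 (h : IsPotential ν K κ Ψ) {z : F → ℂ} (hz : z ∈ Om K) :
    ContDiffAt ℝ ∞ (fderiv ℝ Ψ) z :=
  (h.cd hz).fderiv_right (m := ∞) (by simp)

lemma IsPotential.cd2 (h : IsPotential ν K κ Ψ) {z : F → ℂ} (hz : z ∈ Om K) :
    ContDiffAt ℝ ∞ (hess Ψ) z :=
  (h.cd1 hz).fderiv_right (m := ∞) (by simp)

lemma IsPotential.hd (h : IsPotential ν K κ Ψ) {z : F → ℂ} (hz : z ∈ Om K) :
    HasFDerivAt Ψ (fderiv ℝ Ψ z) z :=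
  ((h.cd hz).differentiableAt (by simp)).hasFDerivAt

lemma IsPotential.hd1 (h : IsPotential ν K κ Ψ) {z : F → ℂ} (hz : z ∈ Om K) :
    HasFDerivAt (fderiv ℝ Ψ) (hess Ψ z) z :=
  ((h.cd1 hz).differentiableAt (by simp)).hasFDerivAt

lemma IsPotential.symm (h : IsPotential ν K κ Ψ) {z : F → ℂ} (hz : z ∈ Om K) (u v : F → ℂ) :
    hess Ψ z u v = hess Ψ z v u :=
  ((h.cd hz).isSymmSndFDerivAt (by
    rw [minSmoothness_of_isRCLikeNormedField]
    exact ENat.LEInfty.out)) u v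

lemma Om_ev {z : F → ℂ} (hz : z ∈ Om K) : ∀ᶠ y in 𝓝 z, y ∈ Om K := (isOpen_Om K).mem_nhds hz

/-- Differentiating `DΨ_z (L z) = κ`. -/
lemma IsPotential.lin (h : IsPotential ν K κ Ψ) (L : (F → ℂ) →L[ℝ] (F → ℂ)) (k : ℝ)
    (hL : ∀ z ∈ Om K, fderiv ℝ Ψ z (L z) = k) {z : F → ℂ} (hz : z ∈ Om K) (w : F → ℂ) :
    hess Ψ z w (L z) + fderiv ℝ Ψ z (L w) = 0 := by
  have h1 : HasFDerivAt (fun y => fderiv ℝ Ψ y (L y))
      ((fderiv ℝ Ψ z).comp L + (hess Ψ z).flip (L z)) z :=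
    (h.hd1 hz).clm_apply L.hasFDerivAt
  have h2 : HasFDerivAt (fun y => fderiv ℝ Ψ y (L y)) (0 : (F → ℂ) →L[ℝ] ℝ) z := by
    refine (hasFDerivAt_const k z).congr_of_eventuallyEq ?_
    filter_upwards [Om_ev hz] with y hy using hL y hy
  have h3 := congrArg (fun F' : (F → ℂ) →L[ℝ] ℝ => F' w) (h1.unique h2)
  simp only [add_apply, ContinuousLinearMap.comp_apply,
    ContinuousLinearMap.flip_apply, zero_apply] at h3
  linarith

lemma IsPotential.of_curve (h : IsPotential ν K κ Ψ) {z : F → ℂ} (hz : z ∈ Om K) (y : ℝ → F → ℂ)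
    (v : F → ℂ) (hy : HasDerivAt y v 0) (hy0 : y 0 = z) (k : ℝ) (hk : ∀ t, Ψ (y t) = Ψ z + k * t) :
    fderiv ℝ Ψ z v = k := by
  have h1 : HasDerivAt (fun t => Ψ (y t)) (fderiv ℝ Ψ z v) 0 := by
    have := h.hd hz
    rw [← hy0] at this ⊢
    exact this.comp_hasDerivAt 0 hy
  have h2 : HasDerivAt (fun t : ℝ => Ψ z + k * t) k 0 := by
    simpa using ((hasDerivAt_id (0 : ℝ)).const_mul k).const_add (Ψ z)
  have h3 : (fun t => Ψ (y t)) = fun t : ℝ => Ψ z + k * t := funext hk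
  rw [h3] at h1
  exact h1.unique h2

/-- Diagonal maps. -/
noncomputable def dg (a : F → ℂ) : (F → ℂ) →L[ℝ] (F → ℂ) :=
  ContinuousLinearMap.pi fun j => (ContinuousLinearMap.lsmul ℝ ℂ (a j)).comp
    (ContinuousLinearMap.proj (R := ℝ) (φ := fun _ : F => ℂ) j)

lemma dg_apply (a z : F → ℂ) (j : F) : dg a z j = a j * z j := by simp [dg]

lemma dg_eq (a z : F → ℂ) : dg a z = fun j => a j * z j := by
  funext j; exact dg_apply a z j

lemma Lie_smul {a : F → ℂ} (ha : a ∈ Lie ν) (w : ℂ) : w • a ∈ Lie ν := by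
  intro k
  have := ha k
  simp only [Pi.smul_apply, smul_eq_mul, mul_assoc]
  rw [← Finset.mul_sum, this, mul_zero]

lemma Lie_add {a b : F → ℂ} (ha : a ∈ Lie ν) (hb : b ∈ Lie ν) : a + b ∈ Lie ν := by
  intro k
  simp only [Pi.add_apply, add_mul, Finset.sum_add_distrib]
  rw [ha k, hb k, add_zero]

lemma hasDerivAt_expa (a : ℂ) (t : ℝ) :
    HasDerivAt (fun s : ℝ => Complex.exp (s * a)) (a * Complex.exp (t * a)) t := by
  have h1 : HasDerivAt (fun s : ℂ => Complex.exp (s * a))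
      (a * Complex.exp ((t : ℂ) * a)) (t : ℂ) := by
    have := ((hasDerivAt_id (t : ℂ)).mul_const a).cexp
    refine this.congr_deriv ?_
    simp only [id, one_mul]
    ring
  exact h1.comp_ofReal

lemma norm_expI (t : ℝ) : ‖Complex.exp (t * Complex.I)‖ = 1 := Complex.norm_exp_ofReal_mul_I t

lemma hasDerivAt_flow (a u : F → ℂ) :
    HasDerivAt (fun s : ℝ => dg (fun i => Complex.exp (s * a i)) u) (dg a u) 0 := by
  rw [hasDerivAt_pi]
  intro i
  simp only [dg_apply]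
  have := (hasDerivAt_expa (a i) 0).mul_const (u i)
  simpa using this

lemma flow_zero (a u : F → ℂ) : dg (fun i => Complex.exp (((0 : ℝ) : ℂ) * a i)) u = u := by
  funext i
  rw [dg_apply]
  simp

lemma IsPotential.euler (h : IsPotential ν K κ Ψ) {z : F → ℂ} (hz : z ∈ Om K) {a : F → ℂ}
    (ha : a ∈ Lie ν) : fderiv ℝ Ψ z (dg a z) = ∑ i, κ i * (a i).re := by
  refine h.of_curve hz _ _ (hasDerivAt_flow a z) (flow_zero a z) _ (fun t => ?_)
  have h1 := h.homog z hz (fun i => (t : ℂ) * a i) (Lie_smul ha (t : ℂ))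
  rw [dg_eq, h1, Finset.sum_mul]
  congr 1
  refine Finset.sum_congr rfl fun i _ => ?_
  rw [Complex.re_ofReal_mul]
  ring

/-- The rotation of one coordinate. -/
noncomputable def Kr (j : F) : (F → ℂ) →L[ℝ] (F → ℂ) :=
  (ContinuousLinearMap.single ℝ (fun _ : F => ℂ) j).comp
    ((ContinuousLinearMap.lsmul ℝ ℂ Complex.I).comp
      (ContinuousLinearMap.proj (R := ℝ) (φ := fun _ : F => ℂ) j))

lemma Kr_apply (j : F) (z : F → ℂ) : Kr j z = Pi.single j (Complex.I * z j) := by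
  simp [Kr]

lemma hasDerivAt_rot (j : F) (u : F → ℂ) :
    HasDerivAt (fun s : ℝ => Function.update u j (Complex.exp (s * Complex.I) * u j)) (Kr j u) 0 := by
  rw [Kr_apply, hasDerivAt_pi]
  intro i
  by_cases hi : i = j
  · subst hi
    simp only [Function.update_self, Pi.single_eq_same]
    have := (hasDerivAt_expa Complex.I 0).mul_const (u i)
    simpa using this
  · simp only [Function.update_of_ne hi, Pi.single_eq_of_ne hi]
    exact hasDerivAt_const _ _

lemma IsPotential.rot (h : IsPotential ν K κ Ψ) (j : F) {z : F → ℂ} (hz : z ∈ Om K) :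
    fderiv ℝ Ψ z (Kr j z) = 0 := by
  refine h.of_curve hz _ _ (hasDerivAt_rot j z) (by simp) 0 (fun t => ?_)
  rw [zero_mul, add_zero]
  symm
  refine h.inv z hz _ (fun i => ?_)
  by_cases hi : i = j
  · subst hi
    simp [norm_expI]
  · simp [Function.update_of_ne hi]

/-- The complex structure. -/
noncomputable def J : (F → ℂ) →L[ℝ] (F → ℂ) := ContinuousLinearMap.lsmul ℝ ℂ Complex.I

lemma J_apply (u : F → ℂ) : J u = Complex.I • u := by simp [J]

lemma II (u : F → ℂ) : Complex.I • Complex.I • u = -u := by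
  rw [smul_smul, Complex.I_mul_I, neg_one_smul]

lemma IsPotential.kg_symm (h : IsPotential ν K κ Ψ) {z : F → ℂ} (hz : z ∈ Om K) (u v : F → ℂ) :
    kg Ψ z u v = kg Ψ z v u := by
  unfold kg
  rw [h.symm hz u v, h.symm hz (Complex.I • u)]

lemma kg_add (z u u' v : F → ℂ) : kg Ψ z (u + u') v = kg Ψ z u v + kg Ψ z u' v := by
  unfold kg
  simp only [smul_add, map_add, add_apply]
  ring

lemma kg_add' (z u v v' : F → ℂ) : kg Ψ z u (v + v') = kg Ψ z u v + kg Ψ z u v' := by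
  unfold kg
  simp only [smul_add, map_add]
  ring

lemma kg_smul (z u v : F → ℂ) (a : ℝ) : kg Ψ z (a • u) v = a * kg Ψ z u v := by
  unfold kg
  rw [smul_comm Complex.I a u]
  simp only [map_smul, smul_apply, smul_eq_mul]
  ring

lemma kg_smul' (z u v : F → ℂ) (a : ℝ) : kg Ψ z u (a • v) = a * kg Ψ z u v := by
  unfold kg
  rw [smul_comm Complex.I a v]
  simp only [map_smul, smul_eq_mul]
  ring

lemma kg_neg (z u v : F → ℂ) : kg Ψ z (-u) v = -kg Ψ z u v := by
  have := kg_smul (Ψ := Ψ) z u v (-1)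
  simpa using this

lemma kg_neg' (z u v : F → ℂ) : kg Ψ z u (-v) = -kg Ψ z u v := by
  have := kg_smul' (Ψ := Ψ) z u v (-1)
  simpa using this

lemma kg_zero (z v : F → ℂ) : kg Ψ z 0 v = 0 := by
  have := kg_smul (Ψ := Ψ) z 0 v 0
  simpa using this

lemma kg_zero' (z u : F → ℂ) : kg Ψ z u 0 = 0 := by
  have := kg_smul' (Ψ := Ψ) z u 0 0
  simpa using this

lemma kg_II (z u v : F → ℂ) : kg Ψ z (Complex.I • u) (Complex.I • v) = kg Ψ z u v := by
  unfold kg
  rw [II, II]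
  simp only [map_neg, neg_apply]
  ring

lemma IsPotential.kg_I_self (h : IsPotential ν K κ Ψ) {z : F → ℂ} (hz : z ∈ Om K) (u : F → ℂ) :
    kg Ψ z u (Complex.I • u) = 0 := by
  have h1 : kg Ψ z (Complex.I • u) (Complex.I • (Complex.I • u)) = kg Ψ z u (Complex.I • u) :=
    kg_II z u (Complex.I • u)
  rw [II, kg_neg', h.kg_symm hz (Complex.I • u) u] at h1
  linarith

lemma dg_I (a z : F → ℂ) : dg (Complex.I • a) z = Complex.I • dg a z := by
  funext j
  simp only [dg_apply, Pi.smul_apply, smul_eq_mul]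
  ring

lemma dg_II (a z : F → ℂ) : dg (Complex.I • a) (Complex.I • z) = -dg a z := by
  funext j
  simp only [dg_apply, Pi.smul_apply, smul_eq_mul, Pi.neg_apply]
  linear_combination (a j * z j) * Complex.I_mul_I

/-- The tangent space of the orbit is in the kernel. -/
lemma IsPotential.kg_ker' (h : IsPotential ν K κ Ψ) {z : F → ℂ} (hz : z ∈ Om K) (u : F → ℂ)
    {a : F → ℂ} (ha : a ∈ Lie ν) : kg Ψ z u (dg a z) = 0 := by
  have h1 := h.lin (dg a) _ (fun y hy => h.euler hy ha) hz u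
  have h2 := h.lin (dg (Complex.I • a)) _ (fun y hy => h.euler hy (Lie_smul ha _)) hz
    (Complex.I • u)
  rw [dg_I, dg_II, map_neg] at h2
  unfold kg
  linarith

lemma IsPotential.kg_ker (h : IsPotential ν K κ Ψ) {z : F → ℂ} (hz : z ∈ Om K) (u : F → ℂ)
    {a : F → ℂ} (ha : a ∈ Lie ν) : kg Ψ z (dg a z) u = 0 := by
  rw [h.kg_symm hz, h.kg_ker' hz u ha]

lemma IsPotential.kg_nonneg (h : IsPotential ν K κ Ψ) {z : F → ℂ} (hz : z ∈ Om K) (u : F → ℂ) :
    0 ≤ kg Ψ z u u := by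
  by_cases hu : ∀ a ∈ Lie ν, u ≠ fun i => a i * z i
  · exact (h.pos z hz u hu).le
  · push Not at hu
    obtain ⟨a, ha, hu⟩ := hu
    have e : u = dg a z := by rw [hu, dg_eq]
    rw [e, h.kg_ker hz _ ha]

/-- Invariance of the second derivative. -/
lemma IsPotential.hess_inv (h : IsPotential ν K κ Ψ) (A : (F → ℂ) →L[ℝ] (F → ℂ))
    (hA0 : ∀ y ∈ Om K, A y ∈ Om K) (k : ℝ) (hA : ∀ y ∈ Om K, Ψ (A y) = Ψ y + k)
    {z : F → ℂ} (hz : z ∈ Om K) (u v : F → ℂ) :
    hess Ψ (A z) (A u) (A v) = hess Ψ z u v := by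
  have h1 : ∀ y ∈ Om K, fderiv ℝ Ψ y = (fderiv ℝ Ψ (A y)).comp A := by
    intro y hy
    have e1 : HasFDerivAt (fun y => Ψ (A y)) ((fderiv ℝ Ψ (A y)).comp A) y :=
      (h.hd (hA0 y hy)).comp y A.hasFDerivAt
    have e2 : HasFDerivAt (fun y => Ψ (A y)) (fderiv ℝ Ψ y) y := by
      refine ((h.hd hy).add_const k).congr_of_eventuallyEq ?_
      filter_upwards [Om_ev hy] with x hx using hA x hx
    exact e2.unique e1
  have h2 : HasFDerivAt (fun y => fderiv ℝ Ψ y v) ((hess Ψ z).flip v) z := by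
    have := (h.hd1 hz).clm_apply (hasFDerivAt_const v z)
    simpa using this
  have h3 : HasFDerivAt (fun y => fderiv ℝ Ψ (A y) (A v)) (((hess Ψ (A z)).flip (A v)).comp A) z := by
    have h31 : HasFDerivAt (fun y => fderiv ℝ Ψ y (A v)) ((hess Ψ (A z)).flip (A v)) (A z) := by
      have := (h.hd1 (hA0 z hz)).clm_apply (hasFDerivAt_const (A v) (A z))
      simpa using this
    exact h31.comp z A.hasFDerivAt
  have h4 : HasFDerivAt (fun y => fderiv ℝ Ψ y v) (((hess Ψ (A z)).flip (A v)).comp A) z := by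
    refine h3.congr_of_eventuallyEq ?_
    filter_upwards [Om_ev hz] with x hx
    rw [h1 x hx]
    rfl
  have h5 := congrArg (fun F' : (F → ℂ) →L[ℝ] ℝ => F' u) (h4.unique h2)
  simpa using h5

lemma IsPotential.kg_inv (h : IsPotential ν K κ Ψ) (A : (F → ℂ) →L[ℝ] (F → ℂ))
    (hA0 : ∀ y ∈ Om K, A y ∈ Om K) (k : ℝ) (hA : ∀ y ∈ Om K, Ψ (A y) = Ψ y + k)
    (hI : ∀ u, A (Complex.I • u) = Complex.I • A u)
    {z : F → ℂ} (hz : z ∈ Om K) (u v : F → ℂ) :
    kg Ψ (A z) (A u) (A v) = kg Ψ z u v := by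
  unfold kg
  rw [← hI, ← hI, h.hess_inv A hA0 k hA hz, h.hess_inv A hA0 k hA hz]

lemma dg_Om {a : F → ℂ} (ha : ∀ i, a i ≠ 0) {y : F → ℂ} (hy : y ∈ Om K) : dg a y ∈ Om K := by
  obtain ⟨σ, hσ, h⟩ := hy
  refine ⟨σ, hσ, fun i hi => h i ?_⟩
  rw [dg_apply] at hi
  exact (mul_eq_zero.mp hi).resolve_left (ha i)

lemma dg_smulI (a u : F → ℂ) : dg a (Complex.I • u) = Complex.I • dg a u := by
  funext j
  simp only [dg_apply, Pi.smul_apply, smul_eq_mul]
  ring

lemma IsPotential.kg_dg (h : IsPotential ν K κ Ψ) (a : F → ℂ) (ha : ∀ j, ‖a j‖ = 1) {z : F → ℂ}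
    (hz : z ∈ Om K) (u v : F → ℂ) : kg Ψ (dg a z) (dg a u) (dg a v) = kg Ψ z u v := by
  have ha0 : ∀ i, a i ≠ 0 := fun i h0 => by
    have := ha i
    rw [h0] at this
    simp at this
  refine h.kg_inv (dg a) (fun y hy => dg_Om ha0 hy) 0 (fun y hy => ?_) (dg_smulI a) hz u v
  rw [add_zero]
  symm
  refine h.inv y hy _ (fun j => ?_)
  rw [dg_apply, norm_mul, ha, one_mul]

lemma IsPotential.kg_exp (h : IsPotential ν K κ Ψ) {a : F → ℂ} (ha : a ∈ Lie ν) {z : F → ℂ}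
    (hz : z ∈ Om K) (u v : F → ℂ) :
    kg Ψ (dg (fun i => Complex.exp (a i)) z) (dg (fun i => Complex.exp (a i)) u)
      (dg (fun i => Complex.exp (a i)) v) = kg Ψ z u v := by
  refine h.kg_inv _ (fun y hy => dg_Om (fun i => Complex.exp_ne_zero _) hy)
    (∑ i, κ i * (a i).re) (fun y hy => ?_) (dg_smulI _) hz u v
  rw [dg_eq]
  exact h.homog y hy a ha

/-! ### The derivative of the metric -/

/-- The derivative of the metric. -/
noncomputable def kt (Ψ : (F → ℂ) → ℝ) (z a u v : F → ℂ) : ℝ :=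
  (fderiv ℝ (hess Ψ) z a u v + fderiv ℝ (hess Ψ) z a (Complex.I • u) (Complex.I • v)) / 4

lemma kt_add1 (z a a' u v : F → ℂ) : kt Ψ z (a + a') u v = kt Ψ z a u v + kt Ψ z a' u v := by
  unfold kt
  simp only [map_add, add_apply]
  ring

lemma kt_smul1 (z a u v : F → ℂ) (b : ℝ) : kt Ψ z (b • a) u v = b * kt Ψ z a u v := by
  unfold kt
  rw [(fderiv ℝ (hess Ψ) z).map_smul b a]
  simp only [smul_apply, smul_eq_mul]
  ring

lemma kt_add3 (z a u v v' : F → ℂ) : kt Ψ z a u (v + v') = kt Ψ z a u v + kt Ψ z a u v' := by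
  unfold kt
  simp only [smul_add, map_add]
  ring

lemma kt_smul3 (z a u v : F → ℂ) (b : ℝ) : kt Ψ z a u (b • v) = b * kt Ψ z a u v := by
  unfold kt
  rw [smul_comm Complex.I b v, (fderiv ℝ (hess Ψ) z a u).map_smul b v,
    (fderiv ℝ (hess Ψ) z a (Complex.I • u)).map_smul b (Complex.I • v)]
  simp only [smul_eq_mul]
  ring

/-- The product rule. -/
lemma IsPotential.PR (h : IsPotential ν K κ Ψ) {a x y : ℝ → F → ℂ} {a' x' y' : F → ℂ} {t : ℝ}
    (ha : HasDerivAt a a' t) (hx : HasDerivAt x x' t) (hy : HasDerivAt y y' t) (h0 : a t ∈ Om K) :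
    HasDerivAt (fun s => kg Ψ (a s) (x s) (y s))
      (kt Ψ (a t) a' (x t) (y t) + kg Ψ (a t) x' (y t) + kg Ψ (a t) (x t) y') t := by
  have hH : HasDerivAt (fun s => hess Ψ (a s)) (fderiv ℝ (hess Ψ) (a t) a') t :=
    ((h.cd2 h0).differentiableAt (by simp)).hasFDerivAt.comp_hasDerivAt t ha
  have hIx : HasDerivAt (fun s => Complex.I • x s) (Complex.I • x') t := by
    have := (J (F := F)).hasFDerivAt.comp_hasDerivAt t hx
    simpa only [Function.comp_def, J_apply] using this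
  have hIy : HasDerivAt (fun s => Complex.I • y s) (Complex.I • y') t := by
    have := (J (F := F)).hasFDerivAt.comp_hasDerivAt t hy
    simpa only [Function.comp_def, J_apply] using this
  have h1 := (hH.clm_apply hx).clm_apply hy
  have h2 := (hH.clm_apply hIx).clm_apply hIy
  refine ((h1.add h2).div_const 4).congr_deriv ?_
  unfold kt kg
  simp only [add_apply]
  ring

/-- invariance under linear flows, infinitesimally -/
lemma IsPotential.flow (h : IsPotential ν K κ Ψ) (A : ℝ → (F → ℂ) → (F → ℂ)) (L : (F → ℂ) → (F → ℂ))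
    (hA : ∀ u, HasDerivAt (fun s => A s u) (L u) 0) (hA0 : ∀ u, A 0 u = u)
    {z : F → ℂ} (hz : z ∈ Om K) (u : F → ℂ)
    (hinv : ∀ s, kg Ψ (A s z) (A s u) (A s u) = kg Ψ z u u) :
    kt Ψ z (L z) u u = -(2 * kg Ψ z (L u) u) := by
  have h1 := h.PR (hA z) (hA u) (hA u) (by rw [hA0]; exact hz)
  rw [hA0, hA0] at h1
  have h2 : HasDerivAt (fun s => kg Ψ (A s z) (A s u) (A s u)) 0 0 := by
    have : (fun s => kg Ψ (A s z) (A s u) (A s u)) = fun _ => kg Ψ z u u := funext hinv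
    rw [this]
    exact hasDerivAt_const _ _
  have h3 := h1.unique h2
  rw [h.kg_symm hz u (L u)] at h3
  linarith

lemma IsPotential.kt_ker (h : IsPotential ν K κ Ψ) {z : F → ℂ} (hz : z ∈ Om K) (u : F → ℂ)
    {a : F → ℂ} (ha : a ∈ Lie ν) : kt Ψ z (dg a z) u u = -(2 * kg Ψ z (dg a u) u) := by
  refine h.flow (fun s u => dg (fun i => Complex.exp (s * a i)) u) (fun u => dg a u)
    (fun u => hasDerivAt_flow a u) (fun u => flow_zero a u) hz u (fun s => ?_)
  exact h.kg_exp (Lie_smul ha (s : ℂ)) hz u u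

lemma dg_update (j : F) (w : ℂ) (u : F → ℂ) :
    dg (Function.update 1 j w) u = Function.update u j (w * u j) := by
  funext i
  rw [dg_apply]
  by_cases hi : i = j
  · subst hi; simp
  · simp [Function.update_of_ne hi]

lemma update_norm (j : F) {w : ℂ} (hw : ‖w‖ = 1) (i : F) :
    ‖Function.update (1 : F → ℂ) j w i‖ = 1 := by
  by_cases hi : i = j
  · subst hi; simpa using hw
  · simp [Function.update_of_ne hi]

lemma IsPotential.kt_rot (h : IsPotential ν K κ Ψ) (j : F) {z : F → ℂ} (hz : z ∈ Om K) (u : F → ℂ) :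
    kt Ψ z (Kr j z) u u = -(2 * kg Ψ z (Kr j u) u) := by
  refine h.flow (fun s u => dg (Function.update 1 j (Complex.exp (s * Complex.I))) u)
    (fun u => Kr j u) (fun u => ?_) (fun u => ?_) hz u (fun s => ?_)
  · simp only [dg_update]
    exact hasDerivAt_rot j u
  · rw [dg_update]
    simp
  · exact h.kg_dg _ (update_norm j (norm_expI s)) hz u u

/-- The Euler-Lagrange expression. -/
noncomputable def EL (Ψ : (F → ℂ) → ℝ) (z z' z'' w : F → ℂ) : ℝ :=
  kt Ψ z z' z' w + kg Ψ z z'' w - kt Ψ z w z' z' / 2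

lemma EL_add (z z' z'' w w' : F → ℂ) :
    EL Ψ z z' z'' (w + w') = EL Ψ z z' z'' w + EL Ψ z z' z'' w' := by
  unfold EL
  rw [kt_add3, kg_add', kt_add1]
  ring

lemma EL_smul (z z' z'' w : F → ℂ) (b : ℝ) :
    EL Ψ z z' z'' (b • w) = b * EL Ψ z z' z'' w := by
  unfold EL
  rw [kt_smul3, kg_smul', kt_smul1]
  ring

end Pool.Agent.TH432.TG
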