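import Mathlib

/-!
# Toric Kähler manifolds in homogeneous coordinates: definitions

A closed toric manifold `M` of complex dimension `n` is given by a complete smooth fan: a finite set `F`
of rays with primitive generators `ν r ∈ ℤ^n` and the set `K` of the sets of rays that span a cone.
`M` is the quotient of the open set `Om K ⊆ ℂ^F` (the zero coordinates of `z` are contained in a set of
`K`) by the torus `G` of all `(exp (a r))`, `a ∈ ℂ^F`, `∑ r, a r • ν r = 0`, which acts freely.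
A Kähler form on `M` invariant under the compact torus `T^n` pulls back to `i ∂ ∂̄ Ψ / 2` on `Om K` for a
function `Ψ` of the `|z r|` with `Ψ (exp a · z) = Ψ z + ∑ κ r * Re (a r)` for `exp a ∈ G`; the metric
pulls back to `kg Ψ z (u, v) = (D²Ψ(u, v) + D²Ψ(i u, i v)) / 4`, whose kernel at `z` is tangent to `G z`.
-/

open Real Set MeasureTheory
open scoped ContDiff

namespace Pool.Agent.TH432.TG

variable {F : Type} [Fintype F] [DecidableEq F] {n : ℕ}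

/-- Complete smooth fans. -/
structure IsFan (ν : F → Fin n → ℤ) (K : Set (Finset F)) : Prop where
  nonempty : K.Nonempty
  down : ∀ σ ∈ K, ∀ τ ⊆ σ, τ ∈ K
  pure : ∀ τ ∈ K, ∃ σ ∈ K, τ ⊆ σ ∧ σ.card = n
  faces : ∀ σ ∈ K, ∀ τ ∈ K, ∀ a b : F → ℝ, (∀ i, 0 ≤ a i) → (∀ i, 0 ≤ b i) →
    (∀ i, i ∉ σ → a i = 0) → (∀ i, i ∉ τ → b i = 0) →
    (∀ k, ∑ i, a i * ν i k = ∑ i, b i * ν i k) → a = b
  span : ∀ σ ∈ K, σ.card = n → ∀ v : Fin n → ℤ, ∃ m : F → ℤ, (∀ i, i ∉ σ → m i = 0) ∧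
    ∀ k, ∑ i, m i * ν i k = v k
  indep : ∀ σ ∈ K, σ.card = n → ∀ a : F → ℂ, (∀ i, i ∉ σ → a i = 0) →
    (∀ k, ∑ i, a i * ν i k = 0) → a = 0
  wall : ∀ σ ∈ K, σ.card = n → ∀ j ∈ σ, ∃ r, r ∉ σ ∧ insert r (σ.erase j) ∈ K ∧
    ∃ m : F → ℤ, (∀ i, i ∉ σ.erase j → m i = 0) ∧ ∀ k, ν j k + ν r k = ∑ i, m i * ν i k

/-- The open set of homogeneous coordinates. -/
def Om (K : Set (Finset F)) : Set (F → ℂ) := {z | ∃ σ ∈ K, ∀ i, z i = 0 → i ∈ σ}

/-- The Lie algebra of `G`. -/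
def Lie (ν : F → Fin n → ℤ) : Set (F → ℂ) := {a | ∀ k, ∑ i, a i * ν i k = 0}

/-- The second derivative. -/
noncomputable def hess (Ψ : (F → ℂ) → ℝ) (z : F → ℂ) : (F → ℂ) →L[ℝ] (F → ℂ) →L[ℝ] ℝ :=
  fderiv ℝ (fderiv ℝ Ψ) z

/-- The (degenerate) metric `(D²Ψ(u, v) + D²Ψ(i u, i v)) / 4` at `z`. -/
noncomputable def kg (Ψ : (F → ℂ) → ℝ) (z u v : F → ℂ) : ℝ :=
  (hess Ψ z u v + hess Ψ z (Complex.I • u) (Complex.I • v)) / 4

/-- The potentials of the torus-invariant Kähler metrics on the toric manifold. -/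
structure IsPotential (ν : F → Fin n → ℤ) (K : Set (Finset F)) (κ : F → ℝ) (Ψ : (F → ℂ) → ℝ) :
    Prop where
  smooth : ContDiffOn ℝ ∞ Ψ (Om K)
  homog : ∀ z ∈ Om K, ∀ a ∈ Lie ν, Ψ (fun i => Complex.exp (a i) * z i) = Ψ z + ∑ i, κ i * (a i).re
  inv : ∀ z ∈ Om K, ∀ w : F → ℂ, (∀ i, ‖z i‖ = ‖w i‖) → Ψ z = Ψ w
  pos : ∀ z ∈ Om K, ∀ u : F → ℂ, (∀ a ∈ Lie ν, u ≠ fun i => a i * z i) → 0 < kg Ψ z u u

/-- `γ`, or rather its projection to `M = Om K / G`, is a geodesic of speed `v`: the Euler-Lagrange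
equation of the energy `kg Ψ γ (γ', γ')`. -/
def IsGeodesic (K : Set (Finset F)) (Ψ : (F → ℂ) → ℝ) (v : ℝ) (γ : ℝ → F → ℂ) : Prop :=
  ContDiff ℝ 2 γ ∧ (∀ t, γ t ∈ Om K) ∧ (∀ t, kg Ψ (γ t) (deriv γ t) (deriv γ t) = v ^ 2) ∧
  ∀ (t : ℝ) (w : F → ℂ), HasDerivAt (fun s => kg Ψ (γ s) (deriv γ s) w)
    (fderiv ℝ (fun y => kg Ψ y (deriv γ t) (deriv γ t)) (γ t) w / 2) t

/-- The point with coordinates `exp (x j + i θ j)`, `j ∈ σ`, the other coordinates being `1`. -/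
noncomputable def pt (σ : Finset F) (x θ : σ → ℝ) : F → ℂ :=
  fun i => if h : i ∈ σ then Complex.exp (x ⟨i, h⟩ + θ ⟨i, h⟩ * Complex.I) else 1

/-- The tangent vectors `∂/∂x j` and `∂/∂θ j`. -/
noncomputable def frame (σ : Finset F) (x θ : σ → ℝ) : σ ⊕ σ → F → ℂ
  | Sum.inl j => Pi.single j (Complex.exp (x j + θ j * Complex.I))
  | Sum.inr j => Pi.single j (Complex.I * Complex.exp (x j + θ j * Complex.I))

/-- The matrix of the metric in the coordinates `(x, θ)`. -/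
noncomputable def gram (Ψ : (F → ℂ) → ℝ) (σ : Finset F) (x θ : σ → ℝ) : Matrix (σ ⊕ σ) (σ ⊕ σ) ℝ :=
  Matrix.of fun a b => kg Ψ (pt σ x θ) (frame σ x θ a) (frame σ x θ b)

/-- The Riemannian volume in the chart of the cone `σ`: `∫ √det g dx dθ` over `ℝ^n × (0, 2π]^n`, the
part of `M` where no homogeneous coordinate vanishes. -/
noncomputable def vol (Ψ : (F → ℂ) → ℝ) (σ : Finset F) : ENNReal :=
  ∫⁻ x : σ → ℝ, ∫⁻ θ in Set.pi univ (fun _ : σ => Ioc (0 : ℝ) (2 * π)),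
    ENNReal.ofReal √(gram Ψ σ x θ).det

end Pool.Agent.TH432.TG
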