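import Pool.Agent.TH432.TG.Line

set_option linter.unusedSectionVars false
set_option linter.unusedSimpArgs false

open Real Set MeasureTheory
open scoped ContDiff Topology

namespace Pool.Agent.TH432.TG

variable {F : Type} [Fintype F] [DecidableEq F] {n : ℕ} {ν : F → Fin n → ℤ} {K : Set (Finset F)}
  {κ : F → ℝ} {Ψ : (F → ℂ) → ℝ} {j r : F} {τ : Finset F} {a0 : F → ℝ}

/-- The reflection of the coordinates in `τ`. -/
def rf (τ : Finset F) : F → ℂ := fun i => if i ∈ τ then -1 else 1

lemma rf_norm (i : F) : ‖rf τ i‖ = 1 := by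
  unfold rf
  split_ifs <;> simp

/-- The part of `w` normal to the line. -/
def perp (τ : Finset F) (w : F → ℂ) : F → ℂ := fun i => if i ∈ τ then w i else 0

lemma rf_perp (w : F → ℂ) : dg (rf τ) (perp τ w) = -perp τ w := by
  funext i
  rw [dg_apply]
  by_cases hi : i ∈ τ
  · simp [rf, perp, hi]
  · simp [rf, perp, hi]

lemma rf_p (e : Edge ν K j r τ a0) (φ : ℝ) (U : ℂ) : dg (rf τ) (p j r τ φ U) = p j r τ φ U := by
  funext i
  rw [dg_apply]
  by_cases hi : i ∈ τ
  · rw [p_τ e _ _ hi, mul_zero]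
  · simp [rf, hi]

lemma IsPotential.kg_perp (h : IsPotential ν K κ Ψ) {z u : F → ℂ} (hz : z ∈ Om K)
    (hz' : dg (rf τ) z = z) (hu : dg (rf τ) u = u) (w : F → ℂ) : kg Ψ z u (perp τ w) = 0 := by
  have := h.kg_dg (rf τ) rf_norm hz u (perp τ w)
  rw [hz', hu, rf_perp, kg_neg'] at this
  linarith

lemma IsPotential.kt_perp (h : IsPotential ν K κ Ψ) {z u : F → ℂ} (hz : z ∈ Om K)
    (hz' : dg (rf τ) z = z) (hu : dg (rf τ) u = u) (w : F → ℂ) : kt Ψ z (perp τ w) u u = 0 := by
  have ha : HasDerivAt (fun s : ℝ => z + s • perp τ w) (perp τ w) 0 := by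
    have := ((hasDerivAt_id (0 : ℝ)).smul_const (perp τ w)).const_add z
    simpa using this
  have h1 := h.PR (t := 0) ha (hasDerivAt_const (0 : ℝ) u) (hasDerivAt_const (0 : ℝ) u)
    (by simpa using hz)
  rw [kg_zero, kg_zero', zero_smul, add_zero, add_zero, add_zero] at h1
  have h2 : ∀ᶠ s : ℝ in 𝓝 0, kg Ψ (z + (-s) • perp τ w) u u = kg Ψ (z + s • perp τ w) u u := by
    have hc : ContinuousAt (fun s : ℝ => z + s • perp τ w) 0 := ha.continuousAt
    have h3 : ∀ᶠ s : ℝ in 𝓝 0, z + s • perp τ w ∈ Om K :=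
      hc.eventually (p := fun y => y ∈ Om K) (by simpa using Om_ev hz)
    filter_upwards [h3] with s hs
    have := h.kg_dg (rf τ) rf_norm hs u u
    rw [map_add, map_smul, hz', rf_perp, hu] at this
    rw [← this]
    congr 1
    module
  have h4 : HasDerivAt (fun s : ℝ => kg Ψ (z + (-s) • perp τ w) u u) (-(kt Ψ z (perp τ w) u u)) 0 := by
    have h5 : HasDerivAt (fun s : ℝ => -s) (-1) 0 := hasDerivAt_neg 0
    have h1' : HasDerivAt (fun s : ℝ => kg Ψ (z + s • perp τ w) u u) (kt Ψ z (perp τ w) u u)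
        (-(0 : ℝ)) := by rw [neg_zero]; exact h1
    have := HasDerivAt.comp (0 : ℝ) h1' h5
    exact this.congr_deriv (by ring)
  have h6 : HasDerivAt (fun s : ℝ => kg Ψ (z + s • perp τ w) u u) (-(kt Ψ z (perp τ w) u u)) 0 :=
    h4.congr_of_eventuallyEq (by filter_upwards [h2] with s hs using hs.symm)
  have := h1.unique h6
  linarith

lemma Dp (e : Edge ν K j r τ a0) {φ : ℝ → ℝ} {U : ℝ → ℂ} {φ' om t : ℝ} (hφ : HasDerivAt φ φ' t)
    (hU : HasDerivAt U ((om : ℂ) * (Complex.I * U t)) t) :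
    HasDerivAt (fun s => p j r τ (φ s) (U s))
      (φ' • q j r (φ t) (U t) + om • Kr j (p j r τ (φ t) (U t))) t := by
  have h1 := ((hφ.cos.smul_const (ee r)).add (hφ.sin.smul (hU.smul_const (ee j)))).add_const
    (bb j r τ)
  refine h1.congr_deriv ?_
  rw [Kr_p e]
  unfold q k
  funext i
  simp only [Pi.add_apply, Pi.smul_apply, Complex.real_smul, smul_eq_mul]
  push_cast
  ring

lemma Dq (e : Edge ν K j r τ a0) {φ : ℝ → ℝ} {U : ℝ → ℂ} {φ' om t : ℝ} (hφ : HasDerivAt φ φ' t)
    (hU : HasDerivAt U ((om : ℂ) * (Complex.I * U t)) t) :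
    HasDerivAt (fun s => q j r (φ s) (U s))
      ((-φ') • pp j r (φ t) (U t) + om • Kr j (q j r (φ t) (U t))) t := by
  have h1 := ((hφ.sin.neg).smul_const (ee r)).add (hφ.cos.smul (hU.smul_const (ee j)))
  refine h1.congr_deriv ?_
  rw [Kr_q e]
  unfold pp
  funext i
  simp only [Pi.add_apply, Pi.smul_apply, Complex.real_smul, smul_eq_mul]
  push_cast
  ring

lemma k_r (e : Edge ν K j r τ a0) (φ : ℝ) (U : ℂ) : k j φ U r = 0 := by
  simp [k, Pi.single_eq_of_ne e.jr.symm]

lemma k_j (φ : ℝ) (U : ℂ) : k j φ U j = Complex.I * (Real.sin φ * U) := by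
  simp [k]

lemma k_o (φ : ℝ) (U : ℂ) {i : F} (hj : i ≠ j) : k j φ U i = 0 := by
  simp [k, Pi.single_eq_of_ne hj]

lemma zero_Lie : (0 : F → ℂ) ∈ Lie ν := by
  intro k
  simp

lemma sum_Lie {ι : Type} (s : Finset ι) (f : ι → F → ℂ) (hf : ∀ i ∈ s, f i ∈ Lie ν) :
    (∑ i ∈ s, f i) ∈ Lie ν := by
  classical
  induction s using Finset.induction_on with
  | empty => simpa using zero_Lie
  | insert i s hi ih =>
    rw [Finset.sum_insert hi]
    exact Lie_add (hf i (Finset.mem_insert_self i s))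
      (ih fun k hk => hf k (Finset.mem_insert_of_mem hk))

/-- Every vector is a combination. -/
lemma decomp (e : Edge ν K j r τ a0) (φ : ℝ) {U : ℂ} (hU : ‖U‖ = 1) (hs : Real.sin φ ≠ 0)
    (hc : Real.cos φ ≠ 0) (w : F → ℂ) : ∃ a ∈ Lie ν, ∃ β β' : ℝ,
      w = dg a (p j r τ φ U) + β • q j r φ U + β' • k j φ U + perp τ w := by
  have hUU : U * (starRingEnd ℂ) U = 1 := by
    rw [Complex.mul_conj, Complex.normSq_eq_norm_sq, hU]
    norm_num
  -- the other coordinates
  choose f hf1 hf2 hf3 hf4 using e.rel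
  set g : F → F → ℂ := fun s => if hs : s ≠ j ∧ s ≠ r ∧ s ∉ τ then w s • f s hs.1 hs.2.1 hs.2.2
    else 0 with hg
  have hgL : ∀ s, g s ∈ Lie ν := by
    intro s
    simp only [hg]
    split_ifs with hs
    · exact Lie_smul (hf1 s _ _ _) _
    · exact zero_Lie
  set a1 : F → ℂ := ∑ s, g s with ha1
  have ha1L : a1 ∈ Lie ν := sum_Lie _ _ fun s _ => hgL s
  have ha1r : a1 r = 0 := by
    rw [ha1, Finset.sum_apply]
    refine Finset.sum_eq_zero fun s _ => ?_
    simp only [hg]
    split_ifs with hs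
    · rw [Pi.smul_apply, hf3, smul_zero]
    · rfl
  have ha1o : ∀ i, i ≠ j → i ≠ r → i ∉ τ → a1 i = w i := by
    intro i hj hr hi
    rw [ha1, Finset.sum_apply, Finset.sum_eq_single i]
    · simp only [hg]
      rw [dif_pos ⟨hj, hr, hi⟩, Pi.smul_apply, hf2, smul_eq_mul, mul_one]
    · intro s _ hsi
      simp only [hg]
      split_ifs with hs
      · rw [Pi.smul_apply, hf4 s _ _ _ i (Ne.symm hsi) hj hr hi, smul_zero]
      · rfl
    · intro h; exact absurd (Finset.mem_univ i) h
  -- the two coordinates of the line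
  set w0 : ℂ := w r with hw0
  set o : ℂ := (w j - a1 j * (Real.sin φ * U)) * (starRingEnd ℂ) U with ho
  have hw1 : w j = o * U + a1 j * (Real.sin φ * U) := by
    rw [ho]
    linear_combination (-(w j - a1 j * (Real.sin φ * U))) * hUU
  have h := Real.sin_sq_add_cos_sq φ
  set α : ℝ := w0.re * Real.cos φ + o.re * Real.sin φ with hα
  set α' : ℝ := w0.im / Real.cos φ with hα'
  refine ⟨a1 + ((α : ℂ) + α' * Complex.I) • (fun i => (a0 i : ℂ)), Lie_add ha1L
    (Lie_smul e.lie _), -w0.re * Real.sin φ + o.re * Real.cos φ,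
    o.im / Real.sin φ - w0.im / Real.cos φ, ?_⟩
  funext i
  simp only [Pi.add_apply, Pi.smul_apply, dg_apply, smul_eq_mul, Complex.real_smul, perp]
  by_cases hj : i = j
  · subst hj
    rw [p_j e, q_j e, k_j, if_neg e.jτ, e.a0j, add_zero]
    have h3 : o = ((α : ℂ) + α' * Complex.I) * Real.sin φ
      + ((-w0.re * Real.sin φ + o.re * Real.cos φ : ℝ) : ℂ) * Real.cos φ
      + ((o.im / Real.sin φ - w0.im / Real.cos φ : ℝ) : ℂ) * (Complex.I * Real.sin φ) := by
      rw [hα, hα']
      apply Complex.ext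
      · simp only [Complex.add_re, Complex.mul_re, Complex.ofReal_re, Complex.ofReal_im,
          Complex.mul_im, Complex.I_re, Complex.I_im, Complex.add_im]
        linear_combination (-o.re) * h
      · simp only [Complex.add_im, Complex.mul_re, Complex.ofReal_re, Complex.ofReal_im,
          Complex.mul_im, Complex.I_re, Complex.I_im, Complex.add_re]
        field_simp
        ring
    calc w i = o * U + a1 i * (Real.sin φ * U) := hw1
      _ = (((α : ℂ) + α' * Complex.I) * Real.sin φ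
      + ((-w0.re * Real.sin φ + o.re * Real.cos φ : ℝ) : ℂ) * Real.cos φ
      + ((o.im / Real.sin φ - w0.im / Real.cos φ : ℝ) : ℂ) * (Complex.I * Real.sin φ)) * U
        + a1 i * (Real.sin φ * U) := by rw [← h3]
      _ = _ := by push_cast; ring
  · by_cases hr : i = r
    · subst hr
      rw [p_r e, q_r e, k_r e, if_neg e.rτ, e.a0r, ha1r, add_zero, mul_zero, add_zero]
      have h3 : w0 = ((α : ℂ) + α' * Complex.I) * Real.cos φ
        + ((-w0.re * Real.sin φ + o.re * Real.cos φ : ℝ) : ℂ) * (-Real.sin φ) := by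
        rw [hα, hα']
        apply Complex.ext
        · simp only [Complex.add_re, Complex.mul_re, Complex.ofReal_re, Complex.ofReal_im,
            Complex.mul_im, Complex.I_re, Complex.I_im, Complex.neg_re, Complex.neg_im,
            Complex.add_im]
          linear_combination (-w0.re) * h
        · simp only [Complex.add_im, Complex.mul_re, Complex.ofReal_re, Complex.ofReal_im,
            Complex.mul_im, Complex.I_re, Complex.I_im, Complex.neg_re, Complex.neg_im,
            Complex.add_re]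
          field_simp
          ring
      calc w i = _ := h3
        _ = _ := by push_cast; ring
    · rw [q_o _ _ hj hr, k_o _ _ hj]
      by_cases hi : i ∈ τ
      · rw [p_τ e _ _ hi, if_pos hi]
        ring
      · rw [p_o _ _ hj hr hi, if_neg hi, ha1o i hj hr hi, e.a0s i hj hr hi]
        simp

/-- The metric on the line. -/
lemma IsPotential.gramZ (h : IsPotential ν K κ Ψ) (e : Edge ν K j r τ a0) (φ : ℝ) {U : ℂ}
    (hU : ‖U‖ = 1) (α β α' β' : ℝ) :
    kg Ψ (p j r τ φ U) (α • q j r φ U + β • Kr j (p j r τ φ U))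
      (α' • q j r φ U + β' • Kr j (p j r τ φ U))
      = (α * α' + β * β' * (Real.sin φ * Real.cos φ) ^ 2) * S Ψ j r τ φ := by
  rw [Kr_p e, kg_add, kg_add', kg_add', kg_smul, kg_smul, kg_smul, kg_smul, kg_smul', kg_smul',
    kg_smul', kg_smul', h.kg_q e φ hU, h.kg_qk e φ hU, h.kg_kq e φ hU, h.kg_kk e φ hU]
  ring

/-- The reciprocal of the speed, as a function of the arc length. -/
noncomputable def G (h : IsPotential ν K κ Ψ) (e : Edge ν K j r τ a0) (x : ℝ) : ℝ :=
  (sg Ψ j r τ (ph h e x))⁻¹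

lemma G_contDiff (h : IsPotential ν K κ Ψ) (e : Edge ν K j r τ a0) : ContDiff ℝ ∞ (G h e) :=
  ((h.contDiff_sg e).comp (ph_contDiff h e)).inv (fun x => (h.sg_pos e _).ne')

lemma G_deriv (h : IsPotential ν K κ Ψ) (e : Edge ν K j r τ a0) (x : ℝ) :
    HasDerivAt (G h e) (deriv (G h e) x) x :=
  ((G_contDiff h e).differentiable (by simp) x).hasDerivAt

lemma G_sq (h : IsPotential ν K κ Ψ) (e : Edge ν K j r τ a0) (x : ℝ) :
    G h e x ^ 2 * S Ψ j r τ (ph h e x) = 1 := by
  unfold G
  rw [← h.sg_sq e]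
  have := (h.sg_pos e (ph h e x)).ne'
  field_simp

lemma pf_sq (h : IsPotential ν K κ Ψ) (e : Edge ν K j r τ a0) (x : ℝ) :
    (Real.sin (ph h e x) * Real.cos (ph h e x)) ^ 2 * S Ψ j r τ (ph h e x) = pf h e x ^ 2 := by
  unfold pf
  rw [← h.sg_sq e]
  ring

lemma ph_deriv' (h : IsPotential ν K κ Ψ) (e : Edge ν K j r τ a0) (x : ℝ) :
    HasDerivAt (ph h e) (G h e x) x := ph_deriv h e x

/-- The Euler-Lagrange equation in the radial direction. -/
lemma ELW (h : IsPotential ν K κ Ψ) (e : Edge ν K j r τ a0) {ρ : ℝ → ℝ} {U : ℝ → ℂ} {om : ℝ → ℝ}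
    {z : ℝ → F → ℂ} (hUn : ∀ t, ‖U t‖ = 1)
    (hU : ∀ t, HasDerivAt U ((om t : ℂ) * (Complex.I * U t)) t)
    (hz : ∀ t, z t = p j r τ (ph h e (ρ t)) (U t))
    (hr : ∀ t, HasDerivAt ρ (deriv ρ t) t) (hr2 : ∀ t, HasDerivAt (deriv ρ) (deriv (deriv ρ) t) t)
    (hz1 : ∀ t, HasDerivAt z ((G h e (ρ t) * deriv ρ t) • q j r (ph h e (ρ t)) (U t)
      + om t • Kr j (z t)) t)
    (hz2 : ∀ t, HasDerivAt (deriv z) (deriv (deriv z) t) t)
    (e1 : ∀ t, deriv (deriv ρ) t = pf h e (ρ t) * deriv (pf h e) (ρ t) * om t ^ 2) (t : ℝ) :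
    EL Ψ (z t) (deriv z t) (deriv (deriv z) t) (G h e (ρ t) • q j r (ph h e (ρ t)) (U t)) = 0 := by
  have hz0 : ∀ t, z t ∈ Om K := fun t => by rw [hz]; exact p_mem e _ (hUn t)
  have dz : ∀ t, deriv z t = (G h e (ρ t) * deriv ρ t) • q j r (ph h e (ρ t)) (U t)
      + om t • Kr j (z t) := fun t => (hz1 t).deriv
  set W' : F → ℂ := (deriv (G h e) (ρ t) * deriv ρ t) • q j r (ph h e (ρ t)) (U t)
    + G h e (ρ t) • ((-(G h e (ρ t) * deriv ρ t)) • pp j r (ph h e (ρ t)) (U t)
      + om t • Kr j (q j r (ph h e (ρ t)) (U t))) with hW'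
  have hφ : ∀ t, HasDerivAt (fun s => ph h e (ρ s)) (G h e (ρ t) * deriv ρ t) t := fun t =>
    (ph_deriv' h e (ρ t)).comp t (hr t)
  have hg : HasDerivAt (fun s => G h e (ρ s)) (deriv (G h e) (ρ t) * deriv ρ t) t :=
    (G_deriv h e (ρ t)).comp t (hr t)
  have hW : HasDerivAt (fun s => G h e (ρ s) • q j r (ph h e (ρ s)) (U s)) W' t := by
    refine (hg.smul (Dq e (hφ t) (hU t))).congr_deriv ?_
    rw [hW', add_comm]
  have hz1' : HasDerivAt z (deriv z t) t := by rw [dz]; exact hz1 t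
  have a1 := h.PR hz1' (hz2 t) hW (hz0 t)
  have a2 : HasDerivAt (fun s => kg Ψ (z s) (deriv z s) (G h e (ρ s) • q j r (ph h e (ρ s)) (U s)))
      (deriv (deriv ρ) t) t := by
    refine (hr2 t).congr_of_eventuallyEq (Filter.Eventually.of_forall fun s => ?_)
    simp only
    have := h.gramZ e (ph h e (ρ s)) (hUn s) (G h e (ρ s) * deriv ρ s) (om s) (G h e (ρ s)) 0
    rw [zero_smul, add_zero, ← hz s, ← dz s] at this
    rw [this]
    have hG := G_sq h e (ρ s)
    linear_combination (deriv ρ s) * hG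
  have a3 := a1.unique a2
  have hs : HasDerivAt (fun x : ℝ => ρ t + x) 1 0 := by
    simpa using (hasDerivAt_id (0 : ℝ)).const_add (ρ t)
  have hr0 : ρ t + 0 = ρ t := add_zero _
  have b1 : HasDerivAt (fun x : ℝ => ph h e (ρ t + x)) (G h e (ρ t)) 0 := by
    have h2 : HasDerivAt (ph h e) (G h e (ρ t)) (ρ t + 0) := by rw [hr0]; exact ph_deriv' h e (ρ t)
    exact (HasDerivAt.comp (0 : ℝ) h2 hs).congr_deriv (by ring)
  have b2 : HasDerivAt (fun x : ℝ => G h e (ρ t + x)) (deriv (G h e) (ρ t)) 0 := by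
    have h2 : HasDerivAt (G h e) (deriv (G h e) (ρ t)) (ρ t + 0) := by rw [hr0]; exact G_deriv h e (ρ t)
    exact (HasDerivAt.comp (0 : ℝ) h2 hs).congr_deriv (by ring)
  have bU : HasDerivAt (fun _ : ℝ => U t) (((0 : ℝ) : ℂ) * (Complex.I * U t)) 0 := by
    simpa using hasDerivAt_const (0 : ℝ) (U t)
  have b3 : HasDerivAt (fun x : ℝ => p j r τ (ph h e (ρ t + x)) (U t))
      (G h e (ρ t) • q j r (ph h e (ρ t)) (U t)) 0 := by
    refine (Dp e b1 bU).congr_deriv ?_
    rw [zero_smul, add_zero, add_zero]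
  have b4 : HasDerivAt (fun x : ℝ => q j r (ph h e (ρ t + x)) (U t))
      ((-G h e (ρ t)) • pp j r (ph h e (ρ t)) (U t)) 0 := by
    refine (Dq e b1 bU).congr_deriv ?_
    rw [zero_smul, add_zero, add_zero]
  have b5 : HasDerivAt (fun x : ℝ => (G h e (ρ t + x) * deriv ρ t) • q j r (ph h e (ρ t + x)) (U t)
      + om t • Kr j (p j r τ (ph h e (ρ t + x)) (U t))) W' 0 := by
    have h1 := (b2.mul_const (deriv ρ t)).smul b4
    have h2 : HasDerivAt (fun x : ℝ => Kr j (p j r τ (ph h e (ρ t + x)) (U t)))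
        (Kr j (G h e (ρ t) • q j r (ph h e (ρ t)) (U t))) 0 :=
      (Kr (F := F) j).hasFDerivAt.comp_hasDerivAt 0 b3
    refine (h1.add (h2.const_smul (om t))).congr_deriv ?_
    rw [hW', hr0, (Kr (F := F) j).map_smul]
    module
  have a4 := h.PR b3 b5 b5 (by rw [hr0]; exact p_mem e _ (hUn t))
  have a5 : HasDerivAt (fun x : ℝ => kg Ψ (p j r τ (ph h e (ρ t + x)) (U t))
      ((G h e (ρ t + x) * deriv ρ t) • q j r (ph h e (ρ t + x)) (U t)
        + om t • Kr j (p j r τ (ph h e (ρ t + x)) (U t)))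
      ((G h e (ρ t + x) * deriv ρ t) • q j r (ph h e (ρ t + x)) (U t)
        + om t • Kr j (p j r τ (ph h e (ρ t + x)) (U t))))
      (2 * om t ^ 2 * (pf h e (ρ t) * deriv (pf h e) (ρ t))) 0 := by
    have h1 : HasDerivAt (fun x : ℝ => pf h e (ρ t + x)) (deriv (pf h e) (ρ t)) 0 := by
      have h2 : HasDerivAt (pf h e) (deriv (pf h e) (ρ t)) (ρ t + 0) := by
        rw [hr0]; exact ((pf_contDiff h e).differentiable (by simp) (ρ t)).hasDerivAt
      exact (HasDerivAt.comp (0 : ℝ) h2 hs).congr_deriv (by ring)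
    have h2 : HasDerivAt (fun x : ℝ => deriv ρ t ^ 2 + om t ^ 2 * pf h e (ρ t + x) ^ 2)
        (2 * om t ^ 2 * (pf h e (ρ t) * deriv (pf h e) (ρ t))) 0 := by
      refine (((h1.pow 2).const_mul (om t ^ 2)).const_add (deriv ρ t ^ 2)).congr_deriv ?_
      rw [hr0]
      push_cast
      ring
    refine h2.congr_of_eventuallyEq (Filter.Eventually.of_forall fun x => ?_)
    simp only
    rw [h.gramZ e (ph h e (ρ t + x)) (hUn t)]
    have hG := G_sq h e (ρ t + x)
    have hp := pf_sq h e (ρ t + x)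
    linear_combination (deriv ρ t ^ 2) * hG + om t ^ 2 * hp
  have a6 := a4.unique a5
  rw [hr0, ← hz t, ← dz t] at a6
  rw [h.kg_symm (hz0 t) W' (deriv z t)] at a6
  unfold EL
  have e' := e1 t
  linarith

lemma cd_deriv {E : Type*} [NormedAddCommGroup E] [NormedSpace ℝ E] {f : ℝ → E}
    (hf : ContDiff ℝ 2 f) : ContDiff ℝ 1 (deriv f) := by
  have h' : ContDiff ℝ (1 + 1) f := by rw [one_add_one_eq_two]; exact hf
  exact h'.deriv'

lemma cd_deriv0 {E : Type*} [NormedAddCommGroup E] [NormedSpace ℝ E] {f : ℝ → E}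
    (hf : ContDiff ℝ 1 f) : Continuous (deriv f) := by
  have h' : ContDiff ℝ (0 + 1) f := by rw [zero_add]; exact hf
  exact h'.deriv'.continuous

lemma cont_fderiv {E E' : Type*} [NormedAddCommGroup E] [NormedSpace ℝ E] [NormedAddCommGroup E']
    [NormedSpace ℝ E'] {f : E → E'} {z x : ℝ → E} (hz : Continuous z)
    (hf : ∀ t, ContDiffAt ℝ ∞ f (z t)) (hx : Continuous x) :
    Continuous (fun t => fderiv ℝ f (z t) (x t)) := by
  have h1 : Continuous (fun t => fderiv ℝ f (z t)) := by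
    rw [continuous_iff_continuousAt]
    intro t
    have h2 : ContDiffAt ℝ ∞ (fderiv ℝ f) (z t) := (hf t).fderiv_right (m := ∞) (by simp)
    exact h2.continuousAt.comp hz.continuousAt
  exact h1.clm_apply hx

/-- The curves on the line are geodesics of the toric manifold. -/
theorem geo (h : IsPotential ν K κ Ψ) (e : Edge ν K j r τ a0) (ρ a b om : ℝ → ℝ)
    (hr : ContDiff ℝ 2 ρ) (ha : ContDiff ℝ 2 a)
    (hb : ContDiff ℝ 2 b) (hab : ∀ t, a t ^ 2 + b t ^ 2 = 1)
    (hom : ∀ t, om t = a t * deriv b t - b t * deriv a t)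
    (e1 : ∀ t, deriv (deriv ρ) t = pf h e (ρ t) * deriv (pf h e) (ρ t) * om t ^ 2)
    (e2 : ∀ t, HasDerivAt (fun s => pf h e (ρ s) ^ 2 * om s) 0 t)
    (e3 : ∀ t, deriv ρ t ^ 2 + pf h e (ρ t) ^ 2 * om t ^ 2 = 1) :
    IsGeodesic K Ψ 1 (fun t => p j r τ (ph h e (ρ t)) (a t + b t * Complex.I)) := by
  set U : ℝ → ℂ := fun t => a t + b t * Complex.I with hUdef
  set z : ℝ → F → ℂ := fun t => p j r τ (ph h e (ρ t)) (U t) with hzdef
  have hUn : ∀ t, ‖U t‖ = 1 := by
    intro t
    rw [hUdef]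
    simp only
    rw [Complex.norm_add_mul_I, hab, Real.sqrt_one]
  have hz0 : ∀ t, z t ∈ Om K := fun t => p_mem e _ (hUn t)
  have da : ∀ t, HasDerivAt a (deriv a t) t := fun t =>
    (ha.differentiable (by simp) t).hasDerivAt
  have db : ∀ t, HasDerivAt b (deriv b t) t := fun t =>
    (hb.differentiable (by simp) t).hasDerivAt
  have dr : ∀ t, HasDerivAt ρ (deriv ρ t) t := fun t =>
    (hr.differentiable (by simp) t).hasDerivAt
  have hr' : ContDiff ℝ 1 (deriv ρ) := cd_deriv hr
  have dr2 : ∀ t, HasDerivAt (deriv ρ) (deriv (deriv ρ) t) t := fun t =>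
    (hr'.differentiable (by simp) t).hasDerivAt
  have horth : ∀ t, a t * deriv a t + b t * deriv b t = 0 := by
    intro t
    have h1 := ((da t).pow 2).add ((db t).pow 2)
    have h2 : HasDerivAt (fun s => a s ^ 2 + b s ^ 2) 0 t := by
      have : (fun s => a s ^ 2 + b s ^ 2) = fun _ => (1 : ℝ) := funext hab
      rw [this]; exact hasDerivAt_const _ _
    have h3 := h1.unique h2
    push_cast at h3
    simp only [pow_one] at h3
    linarith
  have ha' : ∀ t, deriv a t = -(om t * b t) := by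
    intro t
    rw [hom]
    linear_combination (-deriv a t) * hab t + a t * horth t
  have hb' : ∀ t, deriv b t = om t * a t := by
    intro t
    rw [hom]
    linear_combination (-deriv b t) * hab t + b t * horth t
  have hU : ∀ t, HasDerivAt U ((om t : ℂ) * (Complex.I * U t)) t := by
    intro t
    have h1 := (da t).ofReal_comp.add ((db t).ofReal_comp.mul_const Complex.I)
    refine h1.congr_deriv ?_
    rw [ha', hb', hUdef]
    push_cast
    have := Complex.I_mul_I
    linear_combination (-(om t : ℂ) * b t) * this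
  have hUC : ContDiff ℝ 2 U := by
    have h1 : ContDiff ℝ 2 (fun t => (a t : ℂ)) := Complex.ofRealCLM.contDiff.comp ha
    have h2 : ContDiff ℝ 2 (fun t => (b t : ℂ)) := Complex.ofRealCLM.contDiff.comp hb
    exact h1.add (h2.mul contDiff_const)
  have hph2 : ContDiff ℝ 2 (ph h e) := (ph_contDiff h e).of_le ENat.LEInfty.out
  have hφC : ContDiff ℝ 2 (fun t => ph h e (ρ t)) := hph2.comp hr
  have hzC : ContDiff ℝ 2 z :=
    ((hφC.cos.smul contDiff_const).add (hφC.sin.smul (hUC.smul contDiff_const))).add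
      contDiff_const
  have hzC' : ContDiff ℝ 1 (deriv z) := cd_deriv hzC
  have hzC'' : Continuous (deriv (deriv z)) := cd_deriv0 hzC'
  have hφ : ∀ t, HasDerivAt (fun s => ph h e (ρ s)) (G h e (ρ t) * deriv ρ t) t := fun t =>
    (ph_deriv' h e (ρ t)).comp t (dr t)
  have hz1 : ∀ t, HasDerivAt z ((G h e (ρ t) * deriv ρ t) • q j r (ph h e (ρ t)) (U t)
      + om t • Kr j (z t)) t := fun t => Dp e (hφ t) (hU t)
  have dz : ∀ t, deriv z t = (G h e (ρ t) * deriv ρ t) • q j r (ph h e (ρ t)) (U t)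
      + om t • Kr j (z t) := fun t => (hz1 t).deriv
  have hz1' : ∀ t, HasDerivAt z (deriv z t) t := fun t => by rw [dz]; exact hz1 t
  have hz2 : ∀ t, HasDerivAt (deriv z) (deriv (deriv z) t) t := fun t =>
    (hzC'.differentiable (by simp) t).hasDerivAt
  have hspeed : ∀ t, kg Ψ (z t) (deriv z t) (deriv z t) = 1 := by
    intro t
    rw [dz, h.gramZ e _ (hUn t), ← e3 t]
    have hG := G_sq h e (ρ t)
    have hp := pf_sq h e (ρ t)
    linear_combination (deriv ρ t ^ 2) * hG + om t ^ 2 * hp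
  -- the Euler-Lagrange equation on the spanning directions
  have d1 : ∀ t, ∀ c ∈ Lie ν, EL Ψ (z t) (deriv z t) (deriv (deriv z) t) (dg c (z t)) = 0 := by
    intro t c hc
    have hD : HasDerivAt (fun s => dg c (z s)) (dg c (deriv z t)) t :=
      (dg (F := F) c).hasFDerivAt.comp_hasDerivAt t (hz1' t)
    have h1 := h.PR (hz1' t) (hz2 t) hD (hz0 t)
    have h2 : HasDerivAt (fun s => kg Ψ (z s) (deriv z s) (dg c (z s))) 0 t := by
      have : (fun s => kg Ψ (z s) (deriv z s) (dg c (z s))) = fun _ => (0 : ℝ) :=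
        funext fun s => h.kg_ker' (hz0 s) _ hc
      rw [this]; exact hasDerivAt_const _ _
    have h3 := h1.unique h2
    have h4 := h.kt_ker (hz0 t) (deriv z t) hc
    rw [h.kg_symm (hz0 t) (deriv z t) (dg c (deriv z t))] at h3
    unfold EL
    linarith
  have d3 : ∀ t, EL Ψ (z t) (deriv z t) (deriv (deriv z) t) (Kr j (z t)) = 0 := by
    intro t
    have hK : HasDerivAt (fun s => Kr j (z s)) (Kr j (deriv z t)) t :=
      (Kr (F := F) j).hasFDerivAt.comp_hasDerivAt t (hz1' t)
    have h1 := h.PR (hz1' t) (hz2 t) hK (hz0 t)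
    have h2 : HasDerivAt (fun s => kg Ψ (z s) (deriv z s) (Kr j (z s))) 0 t := by
      refine (e2 t).congr_of_eventuallyEq (Filter.Eventually.of_forall fun s => ?_)
      simp only
      have h5 := h.gramZ e (ph h e (ρ s)) (hUn s) (G h e (ρ s) * deriv ρ s) (om s) 0 1
      rw [zero_smul, zero_add, one_smul] at h5
      have h6 : kg Ψ (z s) (deriv z s) (Kr j (z s)) = (G h e (ρ s) * deriv ρ s * 0 + om s * 1
          * (Real.sin (ph h e (ρ s)) * Real.cos (ph h e (ρ s))) ^ 2)
          * S Ψ j r τ (ph h e (ρ s)) := by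
        rw [dz s]; exact h5
      rw [h6]
      have hp := pf_sq h e (ρ s)
      linear_combination om s * hp
    have h3 := h1.unique h2
    have h4 := h.kt_rot j (hz0 t) (deriv z t)
    rw [h.kg_symm (hz0 t) (deriv z t) (Kr j (deriv z t))] at h3
    unfold EL
    linarith
  have d4 : ∀ t, EL Ψ (z t) (deriv z t) (deriv (deriv z) t) (q j r (ph h e (ρ t)) (U t)) = 0 := by
    intro t
    have h1 := ELW h e hUn hU (fun _ => rfl) dr dr2 hz1 hz2 e1 t
    rw [EL_smul] at h1
    have h2 : G h e (ρ t) ≠ 0 := inv_ne_zero (h.sg_pos e _).ne'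
    exact (mul_eq_zero.mp h1).resolve_left h2
  have hrz : ∀ t, dg (rf τ) (z t) = z t := fun t => rf_p e _ _
  have hrz' : ∀ t, dg (rf τ) (deriv z t) = deriv z t := by
    intro t
    have h1 : HasDerivAt (fun s => dg (rf τ) (z s)) (dg (rf τ) (deriv z t)) t :=
      (dg (F := F) (rf τ)).hasFDerivAt.comp_hasDerivAt t (hz1' t)
    have h2 : (fun s => dg (rf τ) (z s)) = z := funext hrz
    rw [h2] at h1
    exact h1.unique (hz1' t)
  have d5 : ∀ t w, EL Ψ (z t) (deriv z t) (deriv (deriv z) t) (perp τ w) = 0 := by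
    intro t w
    have h1 := h.PR (hz1' t) (hz2 t) (hasDerivAt_const t (perp τ w)) (hz0 t)
    have h2 : HasDerivAt (fun s => kg Ψ (z s) (deriv z s) (perp τ w)) 0 t := by
      have : (fun s => kg Ψ (z s) (deriv z s) (perp τ w)) = fun _ => (0 : ℝ) :=
        funext fun s => h.kg_perp (hz0 s) (hrz s) (hrz' s) w
      rw [this]; exact hasDerivAt_const _ _
    have h3 := h1.unique h2
    rw [kg_zero'] at h3
    have h4 := h.kt_perp (hz0 t) (hrz t) (hrz' t) w
    unfold EL
    linarith
  -- good times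
  have good : ∀ t, Real.sin (ph h e (ρ t)) * Real.cos (ph h e (ρ t)) ≠ 0 → ∀ w,
      EL Ψ (z t) (deriv z t) (deriv (deriv z) t) w = 0 := by
    intro t ht w
    obtain ⟨c, hc, β, β', hw⟩ := decomp e (ph h e (ρ t)) (hUn t) (left_ne_zero_of_mul ht)
      (right_ne_zero_of_mul ht) w
    rw [hw, EL_add, EL_add, EL_add, EL_smul, EL_smul, d5, d4, ← Kr_p e]
    have g1 := d1 t c hc
    have g3 := d3 t
    change EL Ψ (z t) (deriv z t) (deriv (deriv z) t)
      (dg c (p j r τ (ph h e (ρ t)) (U t))) = 0 at g1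
    change EL Ψ (z t) (deriv z t) (deriv (deriv z) t)
      (Kr j (p j r τ (ph h e (ρ t)) (U t))) = 0 at g3
    rw [g1, g3]
    ring
  have hdense : Dense {t | Real.sin (ph h e (ρ t)) * Real.cos (ph h e (ρ t)) ≠ 0} := by
    intro t0
    rw [mem_closure_iff_frequently]
    intro hcon
    have hcon' : ∀ᶠ t in 𝓝 t0, Real.sin (ph h e (ρ t)) * Real.cos (ph h e (ρ t)) = 0 := by
      filter_upwards [hcon] with t ht
      by_contra hne
      exact ht hne
    have h0 : Real.sin (ph h e (ρ t0)) * Real.cos (ph h e (ρ t0)) = 0 := hcon'.self_of_nhds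
    have hpf0 : pf h e (ρ t0) = 0 := by unfold pf; rw [h0, zero_mul]
    have h1 : HasDerivAt (fun t => pf h e (ρ t)) 0 t0 := by
      refine (hasDerivAt_const t0 (0 : ℝ)).congr_of_eventuallyEq ?_
      filter_upwards [hcon'] with t ht
      unfold pf
      rw [ht, zero_mul]
    have h2 := ((pf_hasDerivAt h e (ρ t0)).comp t0 (dr t0)).unique h1
    rw [h0, zero_mul, add_zero] at h2
    have hs := (h.sg_pos e (ph h e (ρ t0))).ne'
    have h3 := e3 t0
    rw [hpf0] at h3
    have h4 : deriv ρ t0 ≠ 0 := by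
      intro h5
      rw [h5] at h3
      norm_num at h3
    have h5 : Real.cos (ph h e (ρ t0)) ^ 2 - Real.sin (ph h e (ρ t0)) ^ 2 = 0 := by
      rcases mul_eq_zero.mp h2 with h6 | h6
      · rcases mul_eq_zero.mp h6 with h7 | h7
        · rcases mul_eq_zero.mp h7 with h8 | h8
          · exact h8
          · exact absurd h8 hs
        · exact absurd h7 (inv_ne_zero hs)
      · exact absurd h6 h4
    have h6 := Real.sin_sq_add_cos_sq (ph h e (ρ t0))
    rcases mul_eq_zero.mp h0 with h7 | h7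
    · rw [h7] at h5 h6
      nlinarith
    · rw [h7] at h5 h6
      nlinarith
  have hcontz : Continuous z := hzC.continuous
  have hcontz' : Continuous (deriv z) := hzC'.continuous
  have hC2 : Continuous (fun t => hess Ψ (z t)) := by
    rw [continuous_iff_continuousAt]
    intro t
    exact (h.cd2 (hz0 t)).continuousAt.comp hcontz.continuousAt
  have hC3 : ∀ x : ℝ → F → ℂ, Continuous x → Continuous (fun t => fderiv ℝ (hess Ψ) (z t) (x t)) :=
    fun x hx => cont_fderiv hcontz (fun t => h.cd2 (hz0 t)) hx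
  have hIz' : Continuous (fun t => Complex.I • deriv z t) := by
    have := (J (F := F)).continuous.comp hcontz'
    simpa only [Function.comp_def, J_apply] using this
  have hIz'' : Continuous (fun t => Complex.I • deriv (deriv z) t) := by
    have := (J (F := F)).continuous.comp hzC''
    simpa only [Function.comp_def, J_apply] using this
  have ELall : ∀ t w, EL Ψ (z t) (deriv z t) (deriv (deriv z) t) w = 0 := by
    intro t w
    have hc : Continuous (fun t => EL Ψ (z t) (deriv z t) (deriv (deriv z) t) w) := by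
      unfold EL kt kg
      refine Continuous.sub (Continuous.add ?_ ?_) ?_
      · exact ((((hC3 _ hcontz').clm_apply hcontz').clm_apply continuous_const).add
          (((hC3 _ hcontz').clm_apply hIz').clm_apply continuous_const)).div_const 4
      · exact (((hC2.clm_apply hzC'').clm_apply continuous_const).add
          ((hC2.clm_apply hIz'').clm_apply continuous_const)).div_const 4
      · exact ((((((hC3 _ continuous_const).clm_apply hcontz').clm_apply hcontz').add
          (((hC3 _ continuous_const).clm_apply hIz').clm_apply hIz')).div_const 4)).div_const 2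
    have h1 := Continuous.ext_on hdense hc (continuous_const (y := (0 : ℝ)))
      (fun s hs => good s hs w)
    exact congrFun h1 t
  refine ⟨hzC, hz0, fun t => by rw [hspeed]; norm_num, fun t w => ?_⟩
  have h1 := h.PR (hz1' t) (hz2 t) (hasDerivAt_const t w) (hz0 t)
  refine h1.congr_deriv ?_
  rw [kg_zero', add_zero]
  have h2 : fderiv ℝ (fun y => kg Ψ y (deriv z t) (deriv z t)) (z t) w
      = kt Ψ (z t) w (deriv z t) (deriv z t) := by
    have hdiff : DifferentiableAt ℝ (fun y => kg Ψ y (deriv z t) (deriv z t)) (z t) := by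
      have h3 : DifferentiableAt ℝ (hess Ψ) (z t) := (h.cd2 (hz0 t)).differentiableAt (by simp)
      unfold kg
      have h7 : ∀ u v : F → ℂ, DifferentiableAt ℝ (fun y => hess Ψ y u v) (z t) := fun u v =>
        (h3.clm_apply (differentiableAt_const u)).clm_apply (differentiableAt_const v)
      have h8 := (h7 (deriv z t) (deriv z t)).add (h7 (Complex.I • deriv z t) (Complex.I • deriv z t))
      have h9 := h8.mul_const (4 : ℝ)⁻¹
      simpa only [div_eq_mul_inv, Pi.add_apply] using h9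
    have hl : HasDerivAt (fun s : ℝ => z t + s • w) w 0 := by
      have := ((hasDerivAt_id (0 : ℝ)).smul_const w).const_add (z t)
      simpa using this
    have h4 : HasDerivAt (fun s : ℝ => kg Ψ (z t + s • w) (deriv z t) (deriv z t))
        (fderiv ℝ (fun y => kg Ψ y (deriv z t) (deriv z t)) (z t) w) 0 := by
      have h5 : HasFDerivAt (fun y => kg Ψ y (deriv z t) (deriv z t))
          (fderiv ℝ (fun y => kg Ψ y (deriv z t) (deriv z t)) (z t)) (z t + (0 : ℝ) • w) := by
        rw [zero_smul, add_zero]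
        exact hdiff.hasFDerivAt
      exact h5.comp_hasDerivAt 0 hl
    have h6 := h.PR hl (hasDerivAt_const (0 : ℝ) (deriv z t)) (hasDerivAt_const (0 : ℝ) (deriv z t))
      (by simpa using hz0 t)
    rw [kg_zero, kg_zero', zero_smul, add_zero, add_zero, add_zero] at h6
    exact h4.unique h6
  rw [h2]
  have := ELall t w
  unfold EL at this
  linarith

end Pool.Agent.TH432.TG
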