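import Pool.Agent.TH432.TG.Basic
import Pool.Agent.H206R2.Rot.Main

set_option linter.unusedSectionVars false
set_option linter.unusedSimpArgs false

open Real Set MeasureTheory
open scoped ContDiff Topology

namespace Pool.Agent.TH432.TG

variable {F : Type} [Fintype F] [DecidableEq F] {n : ℕ} {ν : F → Fin n → ℤ} {K : Set (Finset F)}
  {κ : F → ℝ} {Ψ : (F → ℂ) → ℝ}

/-- The combinatorial data of an edge of the polytope: the facets `i ∈ τ` contain it, and it joins the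
vertices `insert j τ` and `insert r τ`. -/
structure Edge (ν : F → Fin n → ℤ) (K : Set (Finset F)) (j r : F) (τ : Finset F) (a0 : F → ℝ) :
    Prop where
  jr : j ≠ r
  jτ : j ∉ τ
  rτ : r ∉ τ
  memj : insert j τ ∈ K
  memr : insert r τ ∈ K
  a0j : a0 j = 1
  a0r : a0 r = 1
  a0s : ∀ i, i ≠ j → i ≠ r → i ∉ τ → a0 i = 0
  lie : (fun i => (a0 i : ℂ)) ∈ Lie ν
  uniq : ∀ a ∈ Lie ν, (∀ i, i ≠ j → i ≠ r → i ∉ τ → a i = 0) → a j = a r
  rel : ∀ s, s ≠ j → s ≠ r → s ∉ τ → ∃ a ∈ Lie ν, a s = 1 ∧ a r = 0 ∧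
    ∀ i, i ≠ s → i ≠ j → i ≠ r → i ∉ τ → a i = 0

variable {j r : F} {τ : Finset F} {a0 : F → ℝ}

/-- The unit vectors. -/
noncomputable abbrev ee (i : F) : F → ℂ := Pi.single i 1

/-- The coordinates off the edge. -/
def bb (j r : F) (τ : Finset F) : F → ℂ := fun i => if i = j ∨ i = r ∨ i ∈ τ then 0 else 1

/-- The homogeneous part. -/
noncomputable def pp (j r : F) (φ : ℝ) (U : ℂ) : F → ℂ :=
  Real.cos φ • ee r + Real.sin φ • (U • ee j)
/-- The point `z_r = cos φ`, `z_j = U sin φ` of the coordinate line. -/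
noncomputable def p (j r : F) (τ : Finset F) (φ : ℝ) (U : ℂ) : F → ℂ := pp j r φ U + bb j r τ
/-- The derivative with respect to `φ`. -/
noncomputable def q (j r : F) (φ : ℝ) (U : ℂ) : F → ℂ :=
  (-Real.sin φ) • ee r + Real.cos φ • (U • ee j)

lemma pp_r (e : Edge ν K j r τ a0) (φ : ℝ) (U : ℂ) : pp j r φ U r = Real.cos φ := by
  simp [pp, Pi.single_eq_of_ne e.jr.symm]

lemma pp_j (e : Edge ν K j r τ a0) (φ : ℝ) (U : ℂ) : pp j r φ U j = Real.sin φ * U := by
  simp [pp, Pi.single_eq_of_ne e.jr]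

lemma pp_o (φ : ℝ) (U : ℂ) {i : F} (hj : i ≠ j) (hr : i ≠ r) : pp j r φ U i = 0 := by
  simp [pp, Pi.single_eq_of_ne hj, Pi.single_eq_of_ne hr]

lemma q_r (e : Edge ν K j r τ a0) (φ : ℝ) (U : ℂ) : q j r φ U r = -Real.sin φ := by
  simp [q, Pi.single_eq_of_ne e.jr.symm]

lemma q_j (e : Edge ν K j r τ a0) (φ : ℝ) (U : ℂ) : q j r φ U j = Real.cos φ * U := by
  simp [q, Pi.single_eq_of_ne e.jr]

lemma q_o (φ : ℝ) (U : ℂ) {i : F} (hj : i ≠ j) (hr : i ≠ r) : q j r φ U i = 0 := by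
  simp [q, Pi.single_eq_of_ne hj, Pi.single_eq_of_ne hr]

lemma bb_j : bb j r τ j = 0 := by simp [bb]
lemma bb_r : bb j r τ r = 0 := by simp [bb]
lemma bb_τ {i : F} (hi : i ∈ τ) : bb j r τ i = 0 := by simp [bb, hi]
lemma bb_o {i : F} (hj : i ≠ j) (hr : i ≠ r) (hi : i ∉ τ) : bb j r τ i = 1 := by
  simp [bb, hi, hj, hr]

lemma p_r (e : Edge ν K j r τ a0) (φ : ℝ) (U : ℂ) : p j r τ φ U r = Real.cos φ := by
  rw [p, Pi.add_apply, pp_r e, bb_r, add_zero]

lemma p_j (e : Edge ν K j r τ a0) (φ : ℝ) (U : ℂ) : p j r τ φ U j = Real.sin φ * U := by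
  rw [p, Pi.add_apply, pp_j e, bb_j, add_zero]

lemma p_τ (e : Edge ν K j r τ a0) (φ : ℝ) (U : ℂ) {i : F} (hi : i ∈ τ) : p j r τ φ U i = 0 := by
  rw [p, Pi.add_apply, bb_τ hi, pp_o _ _ (fun h => e.jτ (by rw [← h]; exact hi)) (fun h => e.rτ (by rw [← h]; exact hi)), add_zero]

lemma p_o (φ : ℝ) (U : ℂ) {i : F} (hj : i ≠ j) (hr : i ≠ r) (hi : i ∉ τ) : p j r τ φ U i = 1 := by
  rw [p, Pi.add_apply, bb_o hj hr hi, pp_o _ _ hj hr, zero_add]

lemma p_mem (e : Edge ν K j r τ a0) (φ : ℝ) {U : ℂ} (hU : ‖U‖ = 1) : p j r τ φ U ∈ Om K := by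
  have hU0 : U ≠ 0 := by
    intro h; rw [h] at hU; simp at hU
  by_cases hc : Real.cos φ = 0
  · refine ⟨insert r τ, e.memr, fun i hi => ?_⟩
    have hs : Real.sin φ ≠ 0 := by
      intro h0
      have := Real.sin_sq_add_cos_sq φ
      rw [h0, hc] at this
      norm_num at this
    by_contra hcon
    simp only [Finset.mem_insert, not_or] at hcon
    by_cases hj : i = j
    · subst hj
      rw [p_j e] at hi
      exact (mul_ne_zero (by exact_mod_cast hs) hU0) hi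
    · rw [p_o φ U hj hcon.1 hcon.2] at hi
      exact one_ne_zero hi
  · refine ⟨insert j τ, e.memj, fun i hi => ?_⟩
    by_contra hcon
    simp only [Finset.mem_insert, not_or] at hcon
    by_cases hr : i = r
    · subst hr
      rw [p_r e] at hi
      exact hc (by exact_mod_cast hi)
    · rw [p_o φ U hcon.1 hr hcon.2] at hi
      exact one_ne_zero hi

lemma pp_ker (e : Edge ν K j r τ a0) (φ : ℝ) (U : ℂ) :
    dg (fun i => (a0 i : ℂ)) (p j r τ φ U) = pp j r φ U := by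
  funext i
  rw [dg_apply]
  by_cases hj : i = j
  · subst hj; rw [p_j e, pp_j e, e.a0j]; simp
  · by_cases hr : i = r
    · subst hr; rw [p_r e, pp_r e, e.a0r]; simp
    · rw [pp_o _ _ hj hr]
      by_cases hi : i ∈ τ
      · rw [p_τ e _ _ hi, mul_zero]
      · rw [e.a0s i hj hr hi]; simp

lemma hasDerivAt_pp (φ : ℝ) (U : ℂ) : HasDerivAt (fun x => pp j r x U) (q j r φ U) φ :=
  ((Real.hasDerivAt_cos φ).smul_const _).add ((Real.hasDerivAt_sin φ).smul_const _)

lemma hasDerivAt_p (φ : ℝ) (U : ℂ) : HasDerivAt (fun x => p j r τ x U) (q j r φ U) φ :=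
  (hasDerivAt_pp φ U).add_const _

lemma contDiff_p (U : ℂ) : ContDiff ℝ ∞ (fun x => p j r τ x U) :=
  ((Real.contDiff_cos.smul contDiff_const).add (Real.contDiff_sin.smul contDiff_const)).add
    contDiff_const

lemma contDiff_q (U : ℂ) : ContDiff ℝ ∞ (fun x => q j r x U) :=
  (Real.contDiff_sin.neg.smul contDiff_const).add (Real.contDiff_cos.smul contDiff_const)

lemma Ue_eq (φ : ℝ) (U : ℂ) :
    (U • ee j) = Real.sin φ • pp j r φ U + Real.cos φ • q j r φ U := by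
  have h := Real.sin_sq_add_cos_sq φ
  calc (U • ee j)
      = (Real.sin φ ^ 2 + Real.cos φ ^ 2) • (U • ee j) := by rw [h, one_smul]
    _ = _ := by
      unfold pp q
      module

lemma dg_q (e : Edge ν K j r τ a0) (φ : ℝ) (U w : ℂ) :
    dg (Function.update 1 j U) (q j r φ w) = q j r φ (U * w) := by
  rw [dg_update]
  funext i
  by_cases hj : i = j
  · subst hj; rw [Function.update_self, q_j e, q_j e]; ring
  · rw [Function.update_of_ne hj]
    by_cases hr : i = r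
    · subst hr; rw [q_r e, q_r e]
    · rw [q_o _ _ hj hr, q_o _ _ hj hr]

lemma dg_p (e : Edge ν K j r τ a0) (φ : ℝ) (U w : ℂ) :
    dg (Function.update 1 j U) (p j r τ φ w) = p j r τ φ (U * w) := by
  rw [dg_update]
  funext i
  by_cases hj : i = j
  · subst hj; rw [Function.update_self, p_j e, p_j e]; ring
  · rw [Function.update_of_ne hj]
    by_cases hr : i = r
    · subst hr; rw [p_r e, p_r e]
    · rw [p, p, Pi.add_apply, Pi.add_apply, pp_o _ _ hj hr, pp_o _ _ hj hr]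

/-- The squared speed of the meridian. -/
noncomputable def S (Ψ : (F → ℂ) → ℝ) (j r : F) (τ : Finset F) (φ : ℝ) : ℝ :=
  kg Ψ (p j r τ φ 1) (q j r φ 1) (q j r φ 1)

lemma IsPotential.S_pos (h : IsPotential ν K κ Ψ) (e : Edge ν K j r τ a0) (φ : ℝ) :
    0 < S Ψ j r τ φ := by
  refine h.pos _ (p_mem e φ (by simp)) _ (fun a ha hq => ?_)
  have hr := congrFun hq r
  have hj := congrFun hq j
  rw [p_r e, q_r e] at hr
  rw [p_j e, q_j e] at hj
  have ho : ∀ i, i ≠ j → i ≠ r → i ∉ τ → a i = 0 := by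
    intro i h1 h2 h3
    have h4 := congrFun hq i
    rw [q_o _ _ h1 h2, p_o _ _ h1 h2 h3, mul_one] at h4
    exact h4.symm
  have hjr := e.uniq a ha ho
  rw [hjr] at hj
  simp only [mul_one] at hr hj
  have h3 : (Real.cos φ : ℂ) * Real.cos φ = -(Real.sin φ * Real.sin φ) := by
    calc (Real.cos φ : ℂ) * Real.cos φ = a r * Real.sin φ * Real.cos φ := by rw [← hj]
      _ = (a r * Real.cos φ) * Real.sin φ := by ring
      _ = _ := by rw [← hr]; ring
  have h4 : Real.cos φ * Real.cos φ = -(Real.sin φ * Real.sin φ) := by exact_mod_cast h3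
  have := Real.sin_sq_add_cos_sq φ
  nlinarith

lemma IsPotential.kg_pp (h : IsPotential ν K κ Ψ) (e : Edge ν K j r τ a0) (φ : ℝ) {U : ℂ}
    (hU : ‖U‖ = 1) (w : F → ℂ) : kg Ψ (p j r τ φ U) (pp j r φ U) w = 0 := by
  rw [← pp_ker e φ U]
  exact h.kg_ker (p_mem e φ hU) w e.lie

lemma IsPotential.kg_pp' (h : IsPotential ν K κ Ψ) (e : Edge ν K j r τ a0) (φ : ℝ) {U : ℂ}
    (hU : ‖U‖ = 1) (w : F → ℂ) : kg Ψ (p j r τ φ U) w (pp j r φ U) = 0 := by
  rw [h.kg_symm (p_mem e φ hU), h.kg_pp e φ hU]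

lemma IsPotential.kg_Ipp (h : IsPotential ν K κ Ψ) (e : Edge ν K j r τ a0) (φ : ℝ) {U : ℂ}
    (hU : ‖U‖ = 1) (w : F → ℂ) : kg Ψ (p j r τ φ U) (Complex.I • pp j r φ U) w = 0 := by
  rw [← pp_ker e φ U, ← dg_I]
  exact h.kg_ker (p_mem e φ hU) w (Lie_smul e.lie _)

lemma IsPotential.kg_q (h : IsPotential ν K κ Ψ) (e : Edge ν K j r τ a0) (φ : ℝ) {U : ℂ}
    (hU : ‖U‖ = 1) : kg Ψ (p j r τ φ U) (q j r φ U) (q j r φ U) = S Ψ j r τ φ := by
  have := h.kg_dg (Function.update 1 j U) (update_norm j hU) (p_mem e φ (U := 1) (by simp))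
    (q j r φ 1) (q j r φ 1)
  rw [dg_p e, dg_q e, mul_one] at this
  exact this

/-- The Killing direction. -/
noncomputable def k (j : F) (φ : ℝ) (U : ℂ) : F → ℂ :=
  Complex.I • (Real.sin φ • (U • ee j))

lemma k_eq (r : F) (φ : ℝ) (U : ℂ) : (k j φ U : F → ℂ)
    = Real.sin φ • (Real.sin φ • (Complex.I • pp j r φ U) + Real.cos φ • (Complex.I • q j r φ U)) := by
  unfold k
  rw [Ue_eq (r := r) φ U]
  simp only [smul_add, smul_comm Complex.I]

lemma IsPotential.kg_k (h : IsPotential ν K κ Ψ) (e : Edge ν K j r τ a0) (φ : ℝ) {U : ℂ}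
    (hU : ‖U‖ = 1) (w : F → ℂ) :
    kg Ψ (p j r τ φ U) (k j φ U) w
      = Real.sin φ * Real.cos φ * kg Ψ (p j r τ φ U) (Complex.I • q j r φ U) w := by
  rw [k_eq r, kg_smul, kg_add, kg_smul, kg_smul, h.kg_Ipp e φ hU]
  ring

lemma IsPotential.kg_kq (h : IsPotential ν K κ Ψ) (e : Edge ν K j r τ a0) (φ : ℝ) {U : ℂ}
    (hU : ‖U‖ = 1) : kg Ψ (p j r τ φ U) (k j φ U) (q j r φ U) = 0 := by
  rw [h.kg_k e φ hU, h.kg_symm (p_mem e φ hU), h.kg_I_self (p_mem e φ hU), mul_zero]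

lemma IsPotential.kg_qk (h : IsPotential ν K κ Ψ) (e : Edge ν K j r τ a0) (φ : ℝ) {U : ℂ}
    (hU : ‖U‖ = 1) : kg Ψ (p j r τ φ U) (q j r φ U) (k j φ U) = 0 := by
  rw [h.kg_symm (p_mem e φ hU), h.kg_kq e φ hU]

lemma IsPotential.kg_kk (h : IsPotential ν K κ Ψ) (e : Edge ν K j r τ a0) (φ : ℝ) {U : ℂ}
    (hU : ‖U‖ = 1) : kg Ψ (p j r τ φ U) (k j φ U) (k j φ U)
      = (Real.sin φ * Real.cos φ) ^ 2 * S Ψ j r τ φ := by
  rw [h.kg_k e φ hU, h.kg_symm (p_mem e φ hU), h.kg_k e φ hU, kg_II, h.kg_q e φ hU]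
  ring

lemma IsPotential.contDiff_hess_p (h : IsPotential ν K κ Ψ) (e : Edge ν K j r τ a0) :
    ContDiff ℝ ∞ (fun φ => hess Ψ (p j r τ φ 1)) := by
  rw [contDiff_iff_contDiffAt]
  intro φ
  exact (h.cd2 (p_mem e φ (by simp))).comp φ (contDiff_p 1).contDiffAt

lemma IsPotential.contDiff_S (h : IsPotential ν K κ Ψ) (e : Edge ν K j r τ a0) :
    ContDiff ℝ ∞ (S Ψ j r τ) := by
  have h1 := h.contDiff_hess_p e
  have h2 : ContDiff ℝ ∞ (fun φ => q j r φ 1) := contDiff_q 1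
  have h3 : ContDiff ℝ ∞ (fun φ => Complex.I • (q j r φ 1 : F → ℂ)) := by
    have := (J (F := F)).contDiff.comp h2
    simpa only [Function.comp_def, J_apply] using this
  unfold S kg
  exact (((h1.clm_apply h2).clm_apply h2).add ((h1.clm_apply h3).clm_apply h3)).div_const 4

lemma p_neg (φ : ℝ) : p j r τ (-φ) 1 = p j r τ φ (-1) := by
  unfold p pp; rw [Real.cos_neg, Real.sin_neg]; module

lemma q_neg (φ : ℝ) : q j r (-φ) 1 = -q j r φ (-1) := by
  unfold q; rw [Real.cos_neg, Real.sin_neg]; module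

lemma IsPotential.S_neg (h : IsPotential ν K κ Ψ) (e : Edge ν K j r τ a0) (φ : ℝ) :
    S Ψ j r τ (-φ) = S Ψ j r τ φ := by
  unfold S
  rw [p_neg, q_neg, kg_neg, kg_neg', neg_neg, h.kg_q e φ (by simp)]
  rfl

/-- The element of the torus acting by `-1` on the homogeneous part. -/
def mm (j r : F) : F → ℂ := fun i => if i = j ∨ i = r then -1 else 1

lemma mm_norm (i : F) : ‖mm j r i‖ = 1 := by
  unfold mm; split_ifs <;> simp

lemma IsPotential.S_add_pi (h : IsPotential ν K κ Ψ) (e : Edge ν K j r τ a0) (φ : ℝ) :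
    S Ψ j r τ (φ + π) = S Ψ j r τ φ := by
  have hp : p j r τ (φ + π) 1 = dg (mm j r) (p j r τ φ 1) := by
    funext i
    rw [dg_apply]
    by_cases hj : i = j
    · subst hj; rw [p_j e, p_j e, Real.sin_add_pi]; simp [mm]
    · by_cases hr : i = r
      · subst hr; rw [p_r e, p_r e, Real.cos_add_pi]; simp [mm]
      · rw [p, p, Pi.add_apply, Pi.add_apply, pp_o _ _ hj hr, pp_o _ _ hj hr]
        simp [mm, hj, hr]
  have hq : q j r (φ + π) 1 = dg (mm j r) (q j r φ 1) := by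
    funext i
    rw [dg_apply]
    by_cases hj : i = j
    · subst hj; rw [q_j e, q_j e, Real.cos_add_pi]; simp [mm]
    · by_cases hr : i = r
      · subst hr; rw [q_r e, q_r e, Real.sin_add_pi]; simp [mm]
      · rw [q_o _ _ hj hr, q_o _ _ hj hr, mul_zero]
  unfold S
  rw [hp, hq, h.kg_dg _ mm_norm (p_mem e φ (by simp))]

lemma IsPotential.S_pi_sub (h : IsPotential ν K κ Ψ) (e : Edge ν K j r τ a0) (φ : ℝ) :
    S Ψ j r τ (π - φ) = S Ψ j r τ φ := by
  rw [show π - φ = -φ + π by ring, h.S_add_pi e, h.S_neg e]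

/-- The speed of the meridian. -/
noncomputable def sg (Ψ : (F → ℂ) → ℝ) (j r : F) (τ : Finset F) (φ : ℝ) : ℝ := √(S Ψ j r τ φ)

lemma IsPotential.sg_pos (h : IsPotential ν K κ Ψ) (e : Edge ν K j r τ a0) (φ : ℝ) :
    0 < sg Ψ j r τ φ := Real.sqrt_pos.mpr (h.S_pos e φ)

lemma IsPotential.sg_sq (h : IsPotential ν K κ Ψ) (e : Edge ν K j r τ a0) (φ : ℝ) :
    sg Ψ j r τ φ ^ 2 = S Ψ j r τ φ := Real.sq_sqrt (h.S_pos e φ).le

lemma IsPotential.contDiff_sg (h : IsPotential ν K κ Ψ) (e : Edge ν K j r τ a0) :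
    ContDiff ℝ ∞ (sg Ψ j r τ) :=
  (h.contDiff_S e).sqrt (fun φ => (h.S_pos e φ).ne')

/-- Arc length. -/
noncomputable def al (Ψ : (F → ℂ) → ℝ) (j r : F) (τ : Finset F) (φ : ℝ) : ℝ :=
  ∫ x in (0 : ℝ)..φ, sg Ψ j r τ x

lemma IsPotential.al_deriv (h : IsPotential ν K κ Ψ) (e : Edge ν K j r τ a0) (φ : ℝ) :
    HasDerivAt (al Ψ j r τ) (sg Ψ j r τ φ) φ :=
  ((h.contDiff_sg e).continuous.integral_hasStrictDerivAt 0 φ).hasDerivAt

lemma al_zero : al Ψ j r τ 0 = 0 := by simp [al]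

lemma IsPotential.al_contDiff (h : IsPotential ν K κ Ψ) (e : Edge ν K j r τ a0) :
    ContDiff ℝ ∞ (al Ψ j r τ) := by
  rw [contDiff_infty_iff_deriv]
  refine ⟨fun φ => (h.al_deriv e φ).differentiableAt, ?_⟩
  have : deriv (al Ψ j r τ) = sg Ψ j r τ := funext fun φ => (h.al_deriv e φ).deriv
  rw [this]
  exact h.contDiff_sg e

lemma IsPotential.al_strictMono (h : IsPotential ν K κ Ψ) (e : Edge ν K j r τ a0) :
    StrictMono (al Ψ j r τ) := by
  refine strictMono_of_deriv_pos (fun φ => ?_)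
  rw [(h.al_deriv e φ).deriv]
  exact h.sg_pos e φ

lemma IsPotential.al_sub (h : IsPotential ν K κ Ψ) (e : Edge ν K j r τ a0) (a : ℝ)
    (ha : ∀ φ, S Ψ j r τ (a - φ) = S Ψ j r τ φ) (φ : ℝ) :
    al Ψ j r τ (a - φ) + al Ψ j r τ φ = 2 * al Ψ j r τ (a / 2) := by
  have hd : ∀ x, HasDerivAt (fun x => al Ψ j r τ (a - x) + al Ψ j r τ x) 0 x := by
    intro x
    have h1 : HasDerivAt (fun x => al Ψ j r τ (a - x)) (-(sg Ψ j r τ (a - x))) x := by
      have h11 : HasDerivAt (fun x : ℝ => a - x) (-1) x := by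
        simpa using (hasDerivAt_id x).const_sub a
      have := (h.al_deriv e (a - x)).comp x h11
      exact this.congr_deriv (by ring)
    refine (h1.add (h.al_deriv e x)).congr_deriv ?_
    unfold sg
    rw [ha]
    ring
  have h2 := is_const_of_deriv_eq_zero (fun x => (hd x).differentiableAt)
    (fun x => (hd x).deriv) φ (a / 2)
  rw [h2, show a - a / 2 = a / 2 by ring]
  ring

lemma IsPotential.al_neg (h : IsPotential ν K κ Ψ) (e : Edge ν K j r τ a0) (φ : ℝ) :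
    al Ψ j r τ (-φ) = -al Ψ j r τ φ := by
  have := h.al_sub e 0 (fun x => by rw [zero_sub, h.S_neg e]) φ
  rw [zero_sub, zero_div, al_zero] at this
  linarith

lemma IsPotential.al_pi_sub (h : IsPotential ν K κ Ψ) (e : Edge ν K j r τ a0) (φ : ℝ) :
    al Ψ j r τ (π - φ) = 2 * al Ψ j r τ (π / 2) - al Ψ j r τ φ := by
  have := h.al_sub e π (h.S_pi_sub e) φ
  linarith

lemma IsPotential.al_surj (h : IsPotential ν K κ Ψ) (e : Edge ν K j r τ a0) :
    Function.Surjective (al Ψ j r τ) := by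
  have hcont : Continuous (al Ψ j r τ) := (h.al_contDiff e).continuous
  have hL : 0 < al Ψ j r τ (π / 2) := by
    rw [← al_zero (Ψ := Ψ) (j := j) (r := r) (τ := τ)]
    exact h.al_strictMono e (by positivity)
  have hper : ∀ n : ℕ, al Ψ j r τ (n * π) = 2 * n * al Ψ j r τ (π / 2) := by
    intro n
    induction n with
    | zero => simp [al_zero]
    | succ n ih =>
      have h1 := h.al_pi_sub e (-(n * π))
      rw [h.al_neg e, ih] at h1
      rw [show ((n + 1 : ℕ) : ℝ) * π = π - -(n * π) by push_cast; ring, h1]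
      push_cast
      ring
  intro y
  obtain ⟨n, hn⟩ := exists_nat_gt (|y| / (2 * al Ψ j r τ (π / 2)))
  rw [div_lt_iff₀ (by positivity)] at hn
  have h1 : y ≤ al Ψ j r τ (n * π) := by
    rw [hper]
    have := le_abs_self y
    nlinarith
  have h2 : al Ψ j r τ (-(n * π)) ≤ y := by
    rw [h.al_neg e, hper]
    have := neg_abs_le y
    nlinarith
  have h3 : -(n * π) ≤ n * π := by
    have : 0 ≤ (n : ℝ) * π := by positivity
    linarith
  obtain ⟨x, _, hx⟩ := intermediate_value_Icc h3 hcont.continuousOn ⟨h2, h1⟩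
  exact ⟨x, hx⟩

/-- Arc length as a homeomorphism. -/
noncomputable def alH (h : IsPotential ν K κ Ψ) (e : Edge ν K j r τ a0) : ℝ ≃ₜ ℝ :=
  ((h.al_strictMono e).orderIsoOfSurjective (al Ψ j r τ) (h.al_surj e)).toHomeomorph

/-- The inverse of the arc length. -/
noncomputable def ph (h : IsPotential ν K κ Ψ) (e : Edge ν K j r τ a0) (x : ℝ) : ℝ :=
  (alH h e).symm x

lemma al_ph (h : IsPotential ν K κ Ψ) (e : Edge ν K j r τ a0) (x : ℝ) :
    al Ψ j r τ (ph h e x) = x := (alH h e).apply_symm_apply x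

lemma ph_al (h : IsPotential ν K κ Ψ) (e : Edge ν K j r τ a0) (x : ℝ) :
    ph h e (al Ψ j r τ x) = x := (alH h e).symm_apply_apply x

lemma ph_contDiff (h : IsPotential ν K κ Ψ) (e : Edge ν K j r τ a0) : ContDiff ℝ ∞ (ph h e) :=
  (alH h e).contDiff_symm_deriv (f' := sg Ψ j r τ) (fun x => (h.sg_pos e x).ne')
    (fun x => h.al_deriv e x) (h.al_contDiff e)

lemma ph_deriv (h : IsPotential ν K κ Ψ) (e : Edge ν K j r τ a0) (x : ℝ) :
    HasDerivAt (ph h e) (sg Ψ j r τ (ph h e x))⁻¹ x :=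
  (h.al_deriv e (ph h e x)).of_local_left_inverse (ph_contDiff h e).continuous.continuousAt
    (h.sg_pos e _).ne' (Filter.Eventually.of_forall fun y => al_ph h e y)

lemma ph_zero (h : IsPotential ν K κ Ψ) (e : Edge ν K j r τ a0) : ph h e 0 = 0 := by
  have := ph_al h e 0
  rwa [al_zero] at this

lemma ph_neg (h : IsPotential ν K κ Ψ) (e : Edge ν K j r τ a0) (x : ℝ) :
    ph h e (-x) = -ph h e x := by
  have := ph_al h e (-ph h e x)
  rwa [h.al_neg e, al_ph] at this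

lemma ph_L (h : IsPotential ν K κ Ψ) (e : Edge ν K j r τ a0) (x : ℝ) :
    ph h e (2 * al Ψ j r τ (π / 2) - x) = π - ph h e x := by
  have := ph_al h e (π - ph h e x)
  rwa [h.al_pi_sub e, al_ph] at this

/-- The profile of the coordinate line. -/
noncomputable def pf (h : IsPotential ν K κ Ψ) (e : Edge ν K j r τ a0) (x : ℝ) : ℝ :=
  Real.sin (ph h e x) * Real.cos (ph h e x) * sg Ψ j r τ (ph h e x)

lemma pf_contDiff (h : IsPotential ν K κ Ψ) (e : Edge ν K j r τ a0) : ContDiff ℝ ∞ (pf h e) :=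
  ((Real.contDiff_sin.comp (ph_contDiff h e)).mul (Real.contDiff_cos.comp (ph_contDiff h e))).mul
    ((h.contDiff_sg e).comp (ph_contDiff h e))

lemma sg_neg (h : IsPotential ν K κ Ψ) (e : Edge ν K j r τ a0) (φ : ℝ) :
    sg Ψ j r τ (-φ) = sg Ψ j r τ φ := by unfold sg; rw [h.S_neg e]

lemma sg_pi_sub (h : IsPotential ν K κ Ψ) (e : Edge ν K j r τ a0) (φ : ℝ) :
    sg Ψ j r τ (π - φ) = sg Ψ j r τ φ := by
  unfold sg; rw [h.S_pi_sub e]

/-- derivative of the profile -/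
lemma pf_hasDerivAt (h : IsPotential ν K κ Ψ) (e : Edge ν K j r τ a0) (x : ℝ) :
    HasDerivAt (pf h e)
    (((Real.cos (ph h e x) ^ 2 - Real.sin (ph h e x) ^ 2) * sg Ψ j r τ (ph h e x)
      + Real.sin (ph h e x) * Real.cos (ph h e x) * deriv (sg Ψ j r τ) (ph h e x))
      * (sg Ψ j r τ (ph h e x))⁻¹) x := by
  have h1 : HasDerivAt (fun φ => Real.sin φ * Real.cos φ * sg Ψ j r τ φ)
      ((Real.cos (ph h e x) ^ 2 - Real.sin (ph h e x) ^ 2) * sg Ψ j r τ (ph h e x)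
      + Real.sin (ph h e x) * Real.cos (ph h e x) * deriv (sg Ψ j r τ) (ph h e x)) (ph h e x) := by
    have := ((Real.hasDerivAt_sin (ph h e x)).mul (Real.hasDerivAt_cos (ph h e x))).mul
      (((h.contDiff_sg e).differentiable (by simp)) (ph h e x)).hasDerivAt
    refine this.congr_deriv ?_
    simp only [Pi.mul_apply]
    ring
  exact h1.comp x (ph_deriv h e x)

lemma profile (h : IsPotential ν K κ Ψ) (e : Edge ν K j r τ a0) :
    Pool.Agent.H206R2.Rot.IsProfile (al Ψ j r τ (π / 2)) (pf h e) where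
  pos := by
    rw [← al_zero (Ψ := Ψ) (j := j) (r := r) (τ := τ)]
    exact h.al_strictMono e (by positivity)
  smooth := pf_contDiff h e
  odd_zero := fun x => by
    unfold pf
    rw [ph_neg, Real.sin_neg, Real.cos_neg, sg_neg h e]
    ring
  odd_L := fun x => by
    unfold pf
    rw [show al Ψ j r τ (π / 2) + x = 2 * al Ψ j r τ (π / 2) - (al Ψ j r τ (π / 2) - x) by ring,
      ph_L, Real.sin_pi_sub, Real.cos_pi_sub, sg_pi_sub h e]
    ring
  fpos := fun x hx hxL => by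
    have h1 : 0 < ph h e x := by
      have := ((h.al_strictMono e).lt_iff_lt (a := 0) (b := ph h e x)).mp
        (by rw [al_zero, al_ph]; exact hx)
      exact this
    have h2 : ph h e x < π / 2 := by
      have := ((h.al_strictMono e).lt_iff_lt (a := ph h e x) (b := π / 2)).mp
        (by rw [al_ph]; exact hxL)
      exact this
    unfold pf
    have h3 := Real.sin_pos_of_pos_of_lt_pi h1 (by linarith [Real.pi_pos])
    have h4 := Real.cos_pos_of_mem_Ioo ⟨by linarith, h2⟩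
    have h5 := h.sg_pos e (ph h e x)
    positivity
  deriv_zero := by
    rw [(pf_hasDerivAt h e 0).deriv, ph_zero]
    simp [(h.sg_pos e 0).ne']
  deriv_L := by
    rw [(pf_hasDerivAt h e _).deriv, ph_al]
    simp [(h.sg_pos e (π / 2)).ne']

/-- The moment map of the line. -/
noncomputable def B (Ψ : (F → ℂ) → ℝ) (j r : F) (τ : Finset F) (φ : ℝ) : ℝ :=
  fderiv ℝ Ψ (p j r τ φ 1) (Real.sin φ • ee j)

lemma Kr_p (e : Edge ν K j r τ a0) (φ : ℝ) (U : ℂ) : Kr j (p j r τ φ U) = k j φ U := by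
  rw [Kr_apply, p_j e]
  unfold k
  funext i
  by_cases hj : i = j
  · subst hj
    simp only [Pi.single_eq_same, Pi.smul_apply, smul_eq_mul, mul_one, Complex.real_smul]
  · simp [Pi.single_eq_of_ne hj]

lemma Kr_q (e : Edge ν K j r τ a0) (φ : ℝ) (U : ℂ) :
    Kr j (q j r φ U) = Complex.I • (Real.cos φ • (U • ee j)) := by
  rw [Kr_apply, q_j e]
  funext i
  by_cases hj : i = j
  · subst hj
    simp only [Pi.single_eq_same, Pi.smul_apply, smul_eq_mul, mul_one, Complex.real_smul]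
  · simp [Pi.single_eq_of_ne hj]

lemma Kr_I (u : F → ℂ) : Kr j (Complex.I • u) = Complex.I • Kr j u := by
  rw [Kr_apply, Kr_apply]
  funext i
  by_cases hj : i = j
  · subst hj; simp
  · simp [Pi.single_eq_of_ne hj]

lemma IsPotential.B_deriv (h : IsPotential ν K κ Ψ) (e : Edge ν K j r τ a0) (φ : ℝ) :
    HasDerivAt (B Ψ j r τ) (4 * (Real.sin φ * Real.cos φ * S Ψ j r τ φ)) φ := by
  have hp := p_mem e φ (U := 1) (by simp)
  have h1 : HasDerivAt (fun x => fderiv ℝ Ψ (p j r τ x 1)) (hess Ψ (p j r τ φ 1) (q j r φ 1)) φ :=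
    (h.hd1 hp).comp_hasDerivAt φ (hasDerivAt_p φ 1)
  have h2 : HasDerivAt (fun x => Real.sin x • ee j)
      (Real.cos φ • ee j) φ := (Real.hasDerivAt_sin φ).smul_const _
  refine (h1.clm_apply h2).congr_deriv ?_
  have h3 := h.lin (Kr j) 0 (fun z hz => h.rot j hz) hp (Complex.I • q j r φ 1)
  have e1 : k j φ 1 = Real.sin φ • (Complex.I • ee j) := by
    unfold k; rw [one_smul, smul_comm]
  have e2 : Complex.I • (Complex.I • (Real.cos φ • ((1 : ℂ) • ee j)))
      = -(Real.cos φ • ee j) := by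
    rw [II, one_smul]
  rw [Kr_p e, Kr_I, Kr_q e, e1, e2, map_neg,
    (hess Ψ (p j r τ φ 1) (Complex.I • q j r φ 1)).map_smul (Real.sin φ)
      (Complex.I • ee j),
    (fderiv ℝ Ψ (p j r τ φ 1)).map_smul (Real.cos φ) (ee j)] at h3
  have h4 : kg Ψ (p j r τ φ 1) (q j r φ 1) ((1 : ℂ) • ee j)
      = Real.cos φ * S Ψ j r τ φ := by
    rw [Ue_eq (r := r) φ 1, kg_add', kg_smul', kg_smul', h.kg_pp' e φ (by simp)]
    unfold S
    ring
  rw [one_smul] at h4
  unfold kg at h4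
  rw [(hess Ψ (p j r τ φ 1) (q j r φ 1)).map_smul (Real.sin φ) (ee j),
    (fderiv ℝ Ψ (p j r τ φ 1)).map_smul (Real.cos φ) (ee j)]
  simp only [smul_eq_mul] at h3 ⊢
  linear_combination (4 * Real.sin φ) * h4 - h3

lemma B_zero : B Ψ j r τ 0 = 0 := by simp [B]

/-- The length of the edge. -/
def len (κ : F → ℝ) (a0 : F → ℝ) : ℝ := ∑ i, κ i * a0 i

lemma IsPotential.B_end (h : IsPotential ν K κ Ψ) (e : Edge ν K j r τ a0) :
    B Ψ j r τ (π / 2) = len κ a0 := by
  have e1 : pp j r (π / 2) 1 = Real.sin (π / 2) • ee j := by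
    unfold pp
    rw [Real.cos_pi_div_two, zero_smul, zero_add, one_smul]
  unfold B
  rw [← e1, ← pp_ker e, h.euler (p_mem e _ (by simp)) e.lie]
  simp [len]

/-- The area of the line. -/
lemma integral_pf (h : IsPotential ν K κ Ψ) (e : Edge ν K j r τ a0) :
    ∫ x in (0 : ℝ)..al Ψ j r τ (π / 2), pf h e x = len κ a0 / 4 := by
  have h1 : ∀ x, HasDerivAt (fun x => B Ψ j r τ (ph h e x) / 4) (pf h e x) x := by
    intro x
    have := ((h.B_deriv e (ph h e x)).comp x (ph_deriv h e x)).div_const 4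
    refine this.congr_deriv ?_
    unfold pf
    have hs := (h.sg_pos e (ph h e x)).ne'
    have hs2 := h.sg_sq e (ph h e x)
    rw [← hs2]
    field_simp
  rw [intervalIntegral.integral_eq_sub_of_hasDerivAt (fun x _ => h1 x)
    ((pf_contDiff h e).continuous.intervalIntegrable _ _), ph_al, ph_zero, h.B_end e, B_zero]
  ring

lemma len_pos (h : IsPotential ν K κ Ψ) (e : Edge ν K j r τ a0) : 0 < len κ a0 := by
  have h1 : 0 < ∫ x in (0 : ℝ)..al Ψ j r τ (π / 2), pf h e x := by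
    refine intervalIntegral.intervalIntegral_pos_of_pos_on
      ((pf_contDiff h e).continuous.intervalIntegrable _ _) (fun x hx => ?_) (profile h e).pos
    exact (profile h e).fpos x hx.1 hx.2
  rw [integral_pf] at h1
  linarith

end Pool.Agent.TH432.TG
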