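import Pool.Agent.TH432.TG.Basic
import Pool.Agent.TH432.TK.Simplex

set_option linter.unusedSectionVars false
set_option linter.unusedSimpArgs false

open Real Set MeasureTheory
open scoped ContDiff Topology

namespace Pool.Agent.TH432.TG

variable {F : Type} [Fintype F] [DecidableEq F] {n : ℕ} {ν : F → Fin n → ℤ} {K : Set (Finset F)}
  {κ : F → ℝ} {Ψ : (F → ℂ) → ℝ}

/-- The open simplex of size `r`. -/
def Sx (ι : Type) [Fintype ι] (r : ℝ) : Set (ι → ℝ) := {x | (∀ i, 0 < x i) ∧ ∑ i, x i < r}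

theorem vol_Sx (ι : Type) [Fintype ι] (r : ℝ) (hr : 0 < r) :
    volume (Sx ι r) = ENNReal.ofReal (r ^ Fintype.card ι / (Fintype.card ι).factorial) := by
  have e : Fin (Fintype.card ι) ≃ ι := (Fintype.equivFin ι).symm
  have h1 := (volume_measurePreserving_piCongrLeft (fun _ : ι => ℝ) e).measure_preimage_equiv
    (Sx ι r)
  rw [← h1, ← TK.vol_So _ r hr]
  congr 1
  ext x
  simp only [Sx, TK.So, Set.mem_preimage, Set.mem_ofPred_eq]
  have h2 : ∀ i, (MeasurableEquiv.piCongrLeft (fun _ : ι => ℝ) e) x (e i) = x i := by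
    intro i
    exact Equiv.piCongrLeft_apply_apply (fun _ : ι => ℝ) e x i
  constructor
  · rintro ⟨h3, h4⟩
    refine ⟨fun i => ?_, ?_⟩
    · rw [← h2 i]; exact h3 (e i)
    · rw [← Equiv.sum_comp e] at h4
      simpa only [h2] using h4
  · rintro ⟨h3, h4⟩
    refine ⟨fun i => ?_, ?_⟩
    · have := h2 (e.symm i)
      rw [Equiv.apply_symm_apply] at this
      rw [this]; exact h3 _
    · rw [← Equiv.sum_comp e]
      simpa only [h2] using h4

/-- The point with positive real coordinates `exp (x j)`, `j ∈ σ`. -/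
noncomputable def zr (σ : Finset F) (x : σ → ℝ) : F → ℂ :=
  fun i => if h : i ∈ σ then (Real.exp (x ⟨i, h⟩) : ℂ) else 1

/-- `z_j e_j`. -/
noncomputable def E (σ : Finset F) (x : σ → ℝ) (j : σ) : F → ℂ :=
  Pi.single (j : F) (Real.exp (x j) : ℂ)

lemma zr_in (σ : Finset F) (x : σ → ℝ) (j : σ) : zr σ x j = Real.exp (x j) := by
  simp [zr]

lemma zr_in' (σ : Finset F) (x : σ → ℝ) {i : F} (h : i ∈ σ) :
    zr σ x i = Real.exp (x ⟨i, h⟩) := by
  simp [zr, h]

lemma zr_out (σ : Finset F) (x : σ → ℝ) {i : F} (h : i ∉ σ) : zr σ x i = 1 := by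
  simp [zr, h]

lemma zr_ne (σ : Finset F) (x : σ → ℝ) (i : F) : zr σ x i ≠ 0 := by
  by_cases h : i ∈ σ
  · rw [zr_in' σ x h]
    exact_mod_cast (Real.exp_pos _).ne'
  · rw [zr_out σ x h]
    exact one_ne_zero

lemma zr_mem (σ : Finset F) (hσ : σ ∈ K) (x : σ → ℝ) : zr σ x ∈ Om K :=
  ⟨σ, hσ, fun i hi => absurd hi (zr_ne σ x i)⟩

/-- The linear map `v ↦ ∑ v_j z_j e_j`. -/
noncomputable def dE (σ : Finset F) (x : σ → ℝ) : (σ → ℝ) →L[ℝ] (F → ℂ) :=
  ContinuousLinearMap.pi (fun i => if h : i ∈ σ then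
    (ContinuousLinearMap.proj (R := ℝ) (φ := fun _ : σ => ℝ) ⟨i, h⟩).smulRight
      (Real.exp (x ⟨i, h⟩) : ℂ) else 0)

lemma dE_in (σ : Finset F) (x v : σ → ℝ) (j : σ) : dE σ x v j = v j * Real.exp (x j) := by
  simp [dE]

lemma dE_out (σ : Finset F) (x v : σ → ℝ) {i : F} (h : i ∉ σ) : dE σ x v i = 0 := by
  simp [dE, h]

lemma dE_single (σ : Finset F) (x : σ → ℝ) (j : σ) : dE σ x (Pi.single j 1) = E σ x j := by
  funext i
  by_cases h : i ∈ σ
  · lift i to σ using h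
    rw [dE_in]
    unfold E
    by_cases hij : i = j
    · subst hij; simp
    · rw [Pi.single_eq_of_ne hij, Pi.single_eq_of_ne (fun h => hij (Subtype.ext h))]
      simp
  · rw [dE_out σ x _ h]
    unfold E
    rw [Pi.single_eq_of_ne (fun h' => h (by rw [h']; exact j.2))]

lemma hasFDerivAt_zr (σ : Finset F) (x : σ → ℝ) : HasFDerivAt (zr σ) (dE σ x) x := by
  rw [hasFDerivAt_pi']
  intro i
  by_cases h : i ∈ σ
  · lift i to σ using h
    have h1 : (fun y : σ → ℝ => zr σ y i) = fun y => ((Real.exp (y i) : ℝ) : ℂ) := by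
      funext y; exact zr_in σ y i
    rw [h1]
    have h2 : HasFDerivAt (fun y : σ → ℝ => Real.exp (y i))
        (Real.exp (x i) • ContinuousLinearMap.proj (R := ℝ) (φ := fun _ : σ => ℝ) i) x :=
      (ContinuousLinearMap.proj (R := ℝ) (φ := fun _ : σ => ℝ) i).hasFDerivAt.exp
    refine (Complex.ofRealCLM.hasFDerivAt.comp x h2).congr_fderiv ?_
    ext v
    simp [dE_in, mul_comm]
  · have h1 : (fun y : σ → ℝ => zr σ y i) = fun _ => 1 := by
      funext y; exact zr_out σ y h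
    rw [h1]
    refine (hasFDerivAt_const (1 : ℂ) x).congr_fderiv ?_
    ext v
    simp [dE_out σ x _ h]

lemma hasFDerivAt_E (σ : Finset F) (x : σ → ℝ) (j : σ) :
    HasFDerivAt (fun y => E σ y j)
      ((ContinuousLinearMap.proj (R := ℝ) (φ := fun _ : σ => ℝ) j).smulRight (E σ x j)) x := by
  have h2 : HasFDerivAt (fun y : σ → ℝ => Real.exp (y j))
      (Real.exp (x j) • ContinuousLinearMap.proj (R := ℝ) (φ := fun _ : σ => ℝ) j) x :=
    (ContinuousLinearMap.proj (R := ℝ) (φ := fun _ : σ => ℝ) j).hasFDerivAt.exp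
  have h3 : HasFDerivAt (fun y : σ → ℝ => ((Real.exp (y j) : ℝ) : ℂ)) _ x :=
    Complex.ofRealCLM.hasFDerivAt.comp x h2
  have h4 := (ContinuousLinearMap.single ℝ (fun _ : F => ℂ) (j : F)).hasFDerivAt.comp x h3
  have h5 : (fun y => E σ y j)
      = (ContinuousLinearMap.single ℝ (fun _ : F => ℂ) (j : F)) ∘
        (fun y : σ → ℝ => ((Real.exp (y j) : ℝ) : ℂ)) := by
    funext y
    simp [E]
  rw [h5]
  refine h4.congr_fderiv ?_
  ext v i
  simp only [ContinuousLinearMap.comp_apply, smul_apply, ContinuousLinearMap.proj_apply,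
    ContinuousLinearMap.smulRight_apply, Complex.ofRealCLM_apply, smul_eq_mul, E, Pi.smul_apply]
  by_cases hi : i = (j : F)
  · subst hi; simp [mul_comm]
  · simp [Pi.single_eq_of_ne hi]

/-- The moment map. -/
noncomputable def Pm (Ψ : (F → ℂ) → ℝ) (σ : Finset F) (x : σ → ℝ) : σ → ℝ :=
  fun j => fderiv ℝ Ψ (zr σ x) (E σ x j)

/-- Its derivative. -/
noncomputable def Pm' (Ψ : (F → ℂ) → ℝ) (σ : Finset F) (x : σ → ℝ) :
    (σ → ℝ) →L[ℝ] (σ → ℝ) :=
  ContinuousLinearMap.pi fun j => ((hess Ψ (zr σ x)).flip (E σ x j)).comp (dE σ x)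
    + ((hess Ψ (zr σ x)).flip (Complex.I • E σ x j)).comp (J.comp (dE σ x))

lemma Pm'_apply (σ : Finset F) (x v : σ → ℝ) (j : σ) :
    Pm' Ψ σ x v j = 4 * kg Ψ (zr σ x) (dE σ x v) (E σ x j) := by
  unfold Pm' kg
  simp only [ContinuousLinearMap.coe_pi', add_apply, ContinuousLinearMap.comp_apply,
    ContinuousLinearMap.flip_apply, J_apply]
  ring

lemma Kr_zr (σ : Finset F) (x : σ → ℝ) (j : σ) : Kr (j : F) (zr σ x) = Complex.I • E σ x j := by
  rw [Kr_apply, zr_in]
  funext i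
  by_cases hi : i = (j : F)
  · subst hi; simp [E]
  · simp [E, Pi.single_eq_of_ne hi]

lemma IsPotential.Pm_deriv (h : IsPotential ν K κ Ψ) {σ : Finset F} (hσ : σ ∈ K) (x : σ → ℝ) :
    HasFDerivAt (Pm Ψ σ) (Pm' Ψ σ x) x := by
  rw [hasFDerivAt_pi']
  intro j
  have h1 : HasFDerivAt (fun y => fderiv ℝ Ψ (zr σ y)) ((hess Ψ (zr σ x)).comp (dE σ x)) x :=
    (h.hd1 (zr_mem σ hσ x)).comp x (hasFDerivAt_zr σ x)
  have h2 := h1.clm_apply (hasFDerivAt_E σ x j)
  refine h2.congr_fderiv ?_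
  ext v
  have h3 := h.lin (Kr (j : F)) 0 (fun z hz => h.rot (j : F) hz) (zr_mem σ hσ x)
    (Complex.I • dE σ x v)
  have h4 : Kr (j : F) (zr σ x) = Complex.I • E σ x j := Kr_zr σ x j
  have h5 : Kr (j : F) (Complex.I • dE σ x v) = -(v j • E σ x j) := by
    rw [Kr_apply, Pi.smul_apply, dE_in]
    funext i
    by_cases hi : i = (j : F)
    · subst hi
      simp only [Pi.single_eq_same, E, Pi.neg_apply, Pi.smul_apply, smul_eq_mul,
        Complex.real_smul]
      rw [← mul_assoc, Complex.I_mul_I]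
      ring
    · simp [E, Pi.single_eq_of_ne hi]
  rw [h4, h5, map_neg] at h3
  simp only [add_apply, ContinuousLinearMap.comp_apply, ContinuousLinearMap.flip_apply,
    ContinuousLinearMap.smulRight_apply, ContinuousLinearMap.proj_apply]
  have h6 : Pm' Ψ σ x v j = hess Ψ (zr σ x) (dE σ x v) (E σ x j)
      + hess Ψ (zr σ x) (Complex.I • dE σ x v) (Complex.I • E σ x j) := by
    rw [Pm'_apply]
    unfold kg
    ring
  rw [h6]
  linarith

/-- The matrix of the metric in logarithmic coordinates. -/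
noncomputable def A (Ψ : (F → ℂ) → ℝ) (σ : Finset F) (x : σ → ℝ) : Matrix σ σ ℝ :=
  Matrix.of fun i j => kg Ψ (zr σ x) (E σ x i) (E σ x j)

lemma det_Pm' (σ : Finset F) (x : σ → ℝ) :
    (Pm' Ψ σ x).det = 4 ^ σ.card * (A Ψ σ x).det := by
  have h1 : LinearMap.toMatrix' (Pm' Ψ σ x : (σ → ℝ) →ₗ[ℝ] (σ → ℝ))
      = (4 : ℝ) • (A Ψ σ x).transpose := by
    ext i j
    rw [LinearMap.toMatrix'_apply]
    have h2 : (fun j' => if j' = j then (1 : ℝ) else 0) = Pi.single j 1 := by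
      funext j'
      by_cases hj : j' = j
      · subst hj; simp
      · simp [hj]
    simp only [ContinuousLinearMap.coe_coe]
    rw [Pm'_apply]
    simp only [Matrix.smul_apply, Matrix.transpose_apply, A, Matrix.of_apply, smul_eq_mul]
    congr 2
    rw [← dE_single]
  unfold ContinuousLinearMap.det
  rw [← LinearMap.det_toMatrix', h1, Matrix.det_smul, Matrix.det_transpose, Fintype.card_coe]

end Pool.Agent.TH432.TG
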