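import Pool.Agent.TH432.TG.Line
import Pool.Agent.TH432.TG.Vol

set_option linter.unusedSectionVars false
set_option linter.unusedSimpArgs false

open Real Set MeasureTheory
open scoped ContDiff Topology

namespace Pool.Agent.TH432.TG

variable {F : Type} [Fintype F] [DecidableEq F] {n : ℕ} {ν : F → Fin n → ℤ} {K : Set (Finset F)}
  {κ : F → ℝ} {Ψ : (F → ℂ) → ℝ}

lemma update_eq (z : F → ℂ) (k : F) (s : ℝ) :
    Function.update z k (s : ℂ) = Function.update z k 0 + s • ee k := by
  funext i
  by_cases hi : i = k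
  · subst hi; simp
  · simp [Function.update_of_ne hi, Pi.single_eq_of_ne hi]

/-- Monotonicity in the moduli. -/
lemma IsPotential.mono (h : IsPotential ν K κ Ψ) (z : F → ℂ) (k : F)
    (hz : ∀ s : ℝ, Function.update z k (s : ℂ) ∈ Om K) {t : ℝ} (ht : 0 ≤ t) :
    Ψ (Function.update z k 0) ≤ Ψ (Function.update z k (t : ℂ)) := by
  set y : ℝ → F → ℂ := fun s => Function.update z k (s : ℂ) with hy
  have hy' : ∀ s, HasDerivAt y (ee k) s := by
    intro s
    have h1 : y = fun s : ℝ => Function.update z k 0 + s • ee k := by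
      funext s; exact update_eq z k s
    rw [h1]
    have := ((hasDerivAt_id s).smul_const (ee k : F → ℂ)).const_add (Function.update z k 0)
    simpa using this
  have hyk : ∀ s, y s k = s := fun s => by simp [hy]
  -- the moment
  have hμ : ∀ s, HasDerivAt (fun s => fderiv ℝ Ψ (y s) (s • ee k))
      (4 * (s * kg Ψ (y s) (ee k) (ee k))) s := by
    intro s
    have h1 : HasDerivAt (fun s => fderiv ℝ Ψ (y s)) (hess Ψ (y s) (ee k)) s :=
      (h.hd1 (hz s)).comp_hasDerivAt s (hy' s)
    have h2 : HasDerivAt (fun s : ℝ => s • (ee k : F → ℂ)) (ee k) s := by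
      simpa using (hasDerivAt_id s).smul_const (ee k : F → ℂ)
    refine (h1.clm_apply h2).congr_deriv ?_
    have h3 := h.lin (Kr k) 0 (fun z hz => h.rot k hz) (hz s) (Complex.I • ee k)
    have h4 : Kr k (y s) = s • (Complex.I • (ee k : F → ℂ)) := by
      rw [Kr_apply, hyk]
      funext i
      by_cases hi : i = k
      · subst hi
        simp [mul_comm]
      · simp [Pi.single_eq_of_ne hi]
    have h5 : Kr k (Complex.I • (ee k : F → ℂ)) = -ee k := by
      rw [Kr_apply]
      funext i
      by_cases hi : i = k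
      · subst hi
        simp
      · simp [Pi.single_eq_of_ne hi]
    change hess Ψ (y s) (Complex.I • ee k) (Kr k (y s)) + _ = 0 at h3
    rw [h4, h5, map_neg, (hess Ψ (y s) (Complex.I • ee k)).map_smul s (Complex.I • ee k)] at h3
    rw [(hess Ψ (y s) (ee k)).map_smul s (ee k)]
    unfold kg
    simp only [smul_eq_mul] at h3 ⊢
    have h6 : fderiv ℝ Ψ (Function.update z k (s : ℂ)) (ee k) = fderiv ℝ Ψ (y s) (ee k) := rfl
    rw [h6] at h3
    linarith
  have hμ0 : ∀ s, 0 ≤ s → 0 ≤ fderiv ℝ Ψ (y s) (s • ee k) := by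
    intro s hs
    have hmono : MonotoneOn (fun s => fderiv ℝ Ψ (y s) (s • ee k)) (Ici 0) := by
      refine monotoneOn_of_deriv_nonneg (convex_Ici 0)
        (fun s _ => (hμ s).continuousAt.continuousWithinAt)
        (fun s _ => (hμ s).differentiableAt.differentiableWithinAt) (fun s hs => ?_)
      rw [(hμ s).deriv]
      rw [interior_Ici] at hs
      have h1 := h.kg_nonneg (hz s) (ee k)
      have h2 : 0 < s := hs
      positivity
    have := hmono (mem_Ici.mpr le_rfl) (mem_Ici.mpr hs) hs
    simpa using this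
  have hΨ : ∀ s, HasDerivAt (fun s => Ψ (y s)) (fderiv ℝ Ψ (y s) (ee k)) s := fun s =>
    (h.hd (hz s)).comp_hasDerivAt s (hy' s)
  have hmono : MonotoneOn (fun s => Ψ (y s)) (Ici 0) := by
    refine monotoneOn_of_deriv_nonneg (convex_Ici 0)
      (fun s _ => (hΨ s).continuousAt.continuousWithinAt)
      (fun s _ => (hΨ s).differentiableAt.differentiableWithinAt) (fun s hs => ?_)
    rw [(hΨ s).deriv]
    rw [interior_Ici] at hs
    have h2 : 0 < s := hs
    have h1 := hμ0 s h2.le
    rw [(fderiv ℝ Ψ (y s)).map_smul s (ee k), smul_eq_mul] at h1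
    exact nonneg_of_mul_nonneg_right h1 h2
  have h0 := hmono (mem_Ici.mpr le_rfl) (mem_Ici.mpr ht) ht
  have h1 : y 0 = Function.update z k 0 := by simp only [hy, Complex.ofReal_zero]
  have h2 : Ψ (y 0) ≤ Ψ (y t) := h0
  rw [h1] at h2
  exact h2

/-- Put the coordinates in `A` equal to zero. -/
noncomputable def kill (A : Finset F) (z : F → ℂ) : F → ℂ := fun i => if i ∈ A then 0 else z i

lemma IsPotential.kill_le (h : IsPotential ν K κ Ψ) {σ : Finset F} (hσ : σ ∈ K) (x : σ → ℝ)
    (A : Finset F) (hA : A ⊆ σ) : Ψ (kill A (zr σ x)) ≤ Ψ (zr σ x) := by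
  induction A using Finset.induction_on with
  | empty =>
    have h0 : kill ∅ (zr σ x) = zr σ x := by
      funext i
      simp [kill]
    rw [h0]
  | insert k A hk ih =>
    refine le_trans ?_ (ih ((Finset.subset_insert k A).trans hA))
    have hkσ : k ∈ σ := hA (Finset.mem_insert_self k A)
    have h1 : kill (insert k A) (zr σ x) = Function.update (kill A (zr σ x)) k 0 := by
      funext i
      by_cases hi : i = k
      · subst hi; simp [kill]
      · simp [kill, hi, Function.update_of_ne hi]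
    have h2 : kill A (zr σ x)
        = Function.update (kill A (zr σ x)) k ((Real.exp (x ⟨k, hkσ⟩) : ℝ) : ℂ) := by
      funext i
      by_cases hi : i = k
      · subst hi
        rw [Function.update_self]
        simp only [kill, if_neg hk]
        exact zr_in' σ x hkσ
      · simp [Function.update_of_ne hi]
    rw [h1]
    conv_rhs => rw [h2]
    refine h.mono _ k (fun s => ?_) (Real.exp_pos _).le
    refine ⟨σ, hσ, fun i hi => ?_⟩
    by_contra hcon
    have hik : i ≠ k := fun h' => hcon (by rw [h']; exact hkσ)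
    rw [Function.update_of_ne hik] at hi
    have : i ∉ A := fun h' => hcon (hA (Finset.mem_insert_of_mem h'))
    simp only [kill, if_neg this] at hi
    exact zr_ne σ x i hi

lemma log_sqrt_nonneg (t : ℝ) : 0 ≤ Real.log √(1 + Real.exp t ^ 2) := by
  apply Real.log_nonneg
  rw [Real.one_le_sqrt]
  nlinarith [sq_nonneg (Real.exp t)]

lemma le_log_sqrt (t : ℝ) : t ≤ Real.log √(1 + Real.exp t ^ 2) := by
  have h1 : Real.exp t ≤ √(1 + Real.exp t ^ 2) := by
    apply Real.le_sqrt_of_sq_le
    linarith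
  have := Real.log_le_log (Real.exp_pos t) h1
  rwa [Real.log_exp] at this

/-- The lower bound along an edge. -/
lemma IsPotential.edge_lower (h : IsPotential ν K κ Ψ) {σ : Finset F} (hσ : σ ∈ K) (i : σ)
    {r : F} {a0 : F → ℝ} (e : Edge ν K (i : F) r (σ.erase i) a0) :
    ∃ C : ℝ, 0 ≤ C ∧ ∀ x : σ → ℝ,
      len κ a0 * Real.log √(1 + Real.exp (x i) ^ 2) - C ≤ Ψ (zr σ x) := by
  have hcont : ContinuousOn (fun φ => Ψ (p (i : F) r (σ.erase i) φ 1)) (Icc 0 (π / 2)) := by
    intro φ _
    have h1 := (h.cd (p_mem e φ (U := 1) (by simp))).continuousAt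
    exact (h1.comp (contDiff_p (j := (i : F)) (r := r) (τ := σ.erase i) 1).continuous.continuousAt
      (x := φ)).continuousWithinAt
  obtain ⟨y, _, hy⟩ := isCompact_Icc.exists_isMinOn
    (nonempty_Icc.mpr (by positivity : (0 : ℝ) ≤ π / 2)) hcont
  refine ⟨|Ψ (p (i : F) r (σ.erase i) y 1)|, abs_nonneg _, fun x => ?_⟩
  set t := Real.exp (x i) with ht
  have ht0 : 0 < t := Real.exp_pos _
  have hsq : 0 < √(1 + t ^ 2) := Real.sqrt_pos.mpr (by positivity)
  set lam := Real.log √(1 + t ^ 2) with hlam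
  have hexp : Real.exp lam = √(1 + t ^ 2) := Real.exp_log hsq
  have h1 := h.kill_le hσ x (σ.erase i) (Finset.erase_subset _ _)
  have h2 : kill (σ.erase i) (zr σ x)
      = fun l => Complex.exp (((lam : ℂ) • fun i => (a0 i : ℂ)) l)
        * p (i : F) r (σ.erase i) (Real.arctan t) 1 l := by
    funext l
    simp only [Pi.smul_apply, smul_eq_mul]
    by_cases hj : l = (i : F)
    · subst hj
      rw [p_j e, e.a0j, Real.sin_arctan]
      simp only [kill, Finset.notMem_erase, if_false]
      rw [zr_in]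
      simp only [Complex.ofReal_one, mul_one]
      rw [← Complex.ofReal_exp, hexp, ← Complex.ofReal_mul]
      congr 1
      field_simp
      exact ht.symm
    · by_cases hr : l = r
      · subst hr
        rw [p_r e, e.a0r, Real.cos_arctan]
        have h3 : l ∉ σ := fun h' => e.rτ (Finset.mem_erase.mpr ⟨hj, h'⟩)
        simp only [kill, if_neg e.rτ]
        rw [zr_out σ x h3]
        simp only [Complex.ofReal_one, mul_one]
        rw [← Complex.ofReal_exp, hexp, ← Complex.ofReal_mul]
        norm_cast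
        field_simp
      · by_cases hl : l ∈ σ.erase i
        · rw [p_τ e _ _ hl, mul_zero]
          simp only [kill, if_pos hl]
        · rw [p_o _ _ hj hr hl, e.a0s l hj hr hl]
          simp only [kill, if_neg hl]
          have h3 : l ∉ σ := fun h' => hl (Finset.mem_erase.mpr ⟨hj, h'⟩)
          rw [zr_out σ x h3]
          simp
  have h3 := h.homog (p (i : F) r (σ.erase i) (Real.arctan t) 1) (p_mem e _ (by simp))
    ((lam : ℂ) • fun i => (a0 i : ℂ)) (Lie_smul e.lie _)
  rw [← h2] at h3
  have h4 : ∑ l, κ l * (((lam : ℂ) • fun i => (a0 i : ℂ)) l).re = len κ a0 * lam := by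
    unfold len
    rw [Finset.sum_mul]
    refine Finset.sum_congr rfl fun l _ => ?_
    simp only [Pi.smul_apply, smul_eq_mul, Complex.re_ofReal_mul, Complex.ofReal_re]
    ring
  rw [h4] at h3
  have h5 : Ψ (p (i : F) r (σ.erase i) y 1) ≤ Ψ (p (i : F) r (σ.erase i) (Real.arctan t) 1) := by
    refine hy ⟨?_, (Real.arctan_lt_pi_div_two t).le⟩
    rw [← Real.arctan_zero]
    exact Real.arctan_strictMono.monotone ht0.le
  have h6 := neg_abs_le (Ψ (p (i : F) r (σ.erase i) y 1))
  linarith

/-- Coercivity. -/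
lemma IsPotential.lower (h : IsPotential ν K κ Ψ) {σ : Finset F} (hσ : σ ∈ K) (hne : σ.Nonempty)
    {c : ℝ} (hed : ∀ i : σ, ∃ r a0, Edge ν K (i : F) r (σ.erase i) a0 ∧ c ≤ len κ a0) :
    ∃ C : ℝ, ∀ x : σ → ℝ, ∃ M : ℝ, 0 ≤ M ∧ (∀ j, x j ≤ M) ∧ c * M - C ≤ Ψ (zr σ x) := by
  choose r a0 he hle using hed
  have hC := fun i => h.edge_lower hσ i (he i)
  choose C hC0 hC1 using hC
  refine ⟨∑ i, C i, fun x => ?_⟩
  have : Nonempty σ := hne.to_subtype
  obtain ⟨i, hi⟩ := Finite.exists_max x
  refine ⟨Real.log √(1 + Real.exp (x i) ^ 2), log_sqrt_nonneg _,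
    fun j => (hi j).trans (le_log_sqrt _), ?_⟩
  have h1 := hC1 i x
  have h2 : C i ≤ ∑ i, C i := Finset.single_le_sum (fun i _ => hC0 i) (Finset.mem_univ i)
  have h3 := mul_le_mul_of_nonneg_right (hle i) (log_sqrt_nonneg (x i))
  linarith

end Pool.Agent.TH432.TG
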