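import Pool.Agent.TH432.TG.Low

set_option linter.unusedSectionVars false
set_option linter.unusedSimpArgs false

open Real Set MeasureTheory
open scoped ContDiff Topology

namespace Pool.Agent.TH432.TG

variable {F : Type} [Fintype F] [DecidableEq F] {n : ℕ} {ν : F → Fin n → ℤ} {K : Set (Finset F)}
  {κ : F → ℝ} {Ψ : (F → ℂ) → ℝ}

lemma IsPotential.surj (h : IsPotential ν K κ Ψ) {σ : Finset F} (hσ : σ ∈ K) {c : ℝ}
    (hlower : ∃ C : ℝ, ∀ x : σ → ℝ, ∃ M : ℝ, 0 ≤ M ∧ (∀ j, x j ≤ M) ∧ c * M - C ≤ Ψ (zr σ x)) :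
    Sx σ c ⊆ Pm Ψ σ '' univ := by
  intro pp hp
  obtain ⟨hp0, hpc⟩ := hp
  obtain ⟨C, hC⟩ := hlower
  set H : (σ → ℝ) → ℝ := fun x => Ψ (zr σ x) - ∑ j, pp j * x j with hH
  -- derivative
  have hd : ∀ x, HasFDerivAt H ((fderiv ℝ Ψ (zr σ x)).comp (dE σ x)
      - ∑ j, pp j • ContinuousLinearMap.proj (R := ℝ) (φ := fun _ : σ => ℝ) j) x := by
    intro x
    have h1 : HasFDerivAt (fun y => Ψ (zr σ y)) ((fderiv ℝ Ψ (zr σ x)).comp (dE σ x)) x :=
      (h.hd (zr_mem σ hσ x)).comp x (hasFDerivAt_zr σ x)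
    have h2 : HasFDerivAt (fun y : σ → ℝ => ∑ j, pp j * y j)
        (∑ j, pp j • ContinuousLinearMap.proj (R := ℝ) (φ := fun _ : σ => ℝ) j) x := by
      refine HasFDerivAt.fun_sum (fun j _ => ?_)
      exact (ContinuousLinearMap.proj (R := ℝ) (φ := fun _ : σ => ℝ) j).hasFDerivAt.const_mul
        (pp j)
    exact h1.sub h2
  have hcont : Continuous H := continuous_iff_continuousAt.mpr fun x => (hd x).continuousAt
  -- coercivity
  obtain ⟨ε, hε, hε1, hε2⟩ : ∃ ε : ℝ, 0 < ε ∧ ε ≤ c - ∑ j, pp j ∧ ∀ j, ε ≤ pp j := by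
    rcases isEmpty_or_nonempty σ with hem | hem
    · exact ⟨c - ∑ j, pp j, by linarith, le_rfl, fun j => (hem.false j).elim⟩
    · obtain ⟨i, hi⟩ := Finite.exists_min pp
      exact ⟨min (c - ∑ j, pp j) (pp i), lt_min (by linarith) (hp0 i), min_le_left _ _,
        fun j => (min_le_right _ _).trans (hi j)⟩
  have hlow : ∀ x, ε * ‖x‖ - C ≤ H x := by
    intro x
    obtain ⟨M, hM0, hMj, h4⟩ := hC x
    have h1 : ‖x‖ ≤ M + ∑ j, (M - x j) := by
      have hnn : 0 ≤ M + ∑ j, (M - x j) :=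
        add_nonneg hM0 (Finset.sum_nonneg fun j _ => by linarith [hMj j])
      rw [pi_norm_le_iff_of_nonneg hnn]
      intro j
      have h2 : M - x j ≤ ∑ i, (M - x i) :=
        Finset.single_le_sum (f := fun i => M - x i) (fun i _ => by linarith [hMj i])
          (Finset.mem_univ j)
      rw [Real.norm_eq_abs, abs_le]
      constructor <;> linarith [hMj j]
    have h2 : ε * (M + ∑ j, (M - x j)) ≤ (c - ∑ j, pp j) * M + ∑ j, pp j * (M - x j) := by
      rw [mul_add, Finset.mul_sum]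
      refine add_le_add (mul_le_mul_of_nonneg_right hε1 hM0) (Finset.sum_le_sum fun j _ => ?_)
      exact mul_le_mul_of_nonneg_right (hε2 j) (by linarith [hMj j])
    have h3 : (c - ∑ j, pp j) * M + ∑ j, pp j * (M - x j) = c * M - ∑ j, pp j * x j := by
      simp only [mul_sub, Finset.sum_sub_distrib, ← Finset.sum_mul]
      ring
    have h5 : ε * ‖x‖ ≤ ε * (M + ∑ j, (M - x j)) := mul_le_mul_of_nonneg_left h1 hε.le
    have h6 : H x = Ψ (zr σ x) - ∑ j, pp j * x j := rfl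
    rw [h6]
    linarith
  have htend : Filter.Tendsto H (Filter.cocompact _) Filter.atTop := by
    refine Filter.tendsto_atTop_mono hlow ?_
    exact Filter.tendsto_atTop_add_const_right _ _
      ((tendsto_norm_cocompact_atTop (E := σ → ℝ)).const_mul_atTop hε)
  obtain ⟨x, hx⟩ := hcont.exists_forall_le htend
  refine ⟨x, mem_univ _, ?_⟩
  have h1 : IsLocalMin H x := Filter.Eventually.of_forall hx
  have h2 := h1.hasFDerivAt_eq_zero (hd x)
  funext j
  have h3 := congrArg (fun F' : (σ → ℝ) →L[ℝ] ℝ => F' (Pi.single j 1)) h2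
  simp only [sub_apply, ContinuousLinearMap.comp_apply, dE_single, zero_apply,
    sum_apply, smul_apply, ContinuousLinearMap.proj_apply, smul_eq_mul] at h3
  rw [Finset.sum_eq_single j] at h3
  · rw [Pi.single_eq_same, mul_one] at h3
    unfold Pm
    linarith
  · intro i _ hi
    rw [Pi.single_eq_of_ne hi, mul_zero]
  · intro hj
    exact absurd (Finset.mem_univ j) hj

lemma IsPotential.int_lower (h : IsPotential ν K κ Ψ) {σ : Finset F} (hσ : σ ∈ K) {c : ℝ}
    (hlower : ∃ C : ℝ, ∀ x : σ → ℝ, ∃ M : ℝ, 0 ≤ M ∧ (∀ j, x j ≤ M) ∧ c * M - C ≤ Ψ (zr σ x))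
    (hc : 0 < c) :
    ENNReal.ofReal (c ^ σ.card / σ.card.factorial)
      ≤ ENNReal.ofReal (4 ^ σ.card) * ∫⁻ x, ENNReal.ofReal |(A Ψ σ x).det| := by
  have h0 := vol_Sx σ c hc
  rw [Fintype.card_coe] at h0
  rw [← h0]
  have h1 := measure_mono (μ := (volume : Measure (σ → ℝ))) (h.surj hσ hlower)
  have h2 := addHaar_image_le_lintegral_abs_det_fderiv (μ := (volume : Measure (σ → ℝ)))
    (s := univ) (f := Pm Ψ σ) (f' := Pm' Ψ σ) MeasurableSet.univ
    (fun x _ => (h.Pm_deriv hσ x).hasFDerivWithinAt)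
  refine (h1.trans h2).trans (le_of_eq ?_)
  rw [Measure.restrict_univ, ← lintegral_const_mul' _ _ ENNReal.ofReal_ne_top]
  congr 1
  funext x
  rw [det_Pm', abs_mul, abs_of_pos (by positivity : (0 : ℝ) < 4 ^ σ.card),
    ENNReal.ofReal_mul (by positivity)]

/-! ### The Gram matrix -/

/-- The torus element. -/
noncomputable def at' (σ : Finset F) (θ : σ → ℝ) : F → ℂ :=
  fun i => if h : i ∈ σ then Complex.exp (θ ⟨i, h⟩ * Complex.I) else 1

lemma at_norm (σ : Finset F) (θ : σ → ℝ) (i : F) : ‖at' σ θ i‖ = 1 := by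
  unfold at'
  split_ifs with h
  · exact norm_expI _
  · simp

lemma at_in (σ : Finset F) (θ : σ → ℝ) (j : σ) : at' σ θ j = Complex.exp (θ j * Complex.I) := by
  simp [at']

lemma pt_eq (σ : Finset F) (x θ : σ → ℝ) : pt σ x θ = dg (at' σ θ) (zr σ x) := by
  funext i
  rw [dg_apply]
  by_cases h : i ∈ σ
  · lift i to σ using h
    rw [at_in, zr_in, Complex.ofReal_exp, ← Complex.exp_add]
    simp [pt, add_comm]
  · simp [pt, at', zr, h]

lemma frame_inl (σ : Finset F) (x θ : σ → ℝ) (j : σ) :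
    frame σ x θ (Sum.inl j) = dg (at' σ θ) (E σ x j) := by
  funext i
  rw [dg_apply]
  change (Pi.single (j : F) (Complex.exp (x j + θ j * Complex.I)) : F → ℂ) i = _
  unfold E
  by_cases hi : i = (j : F)
  · subst hi
    rw [Pi.single_eq_same, Pi.single_eq_same, at_in, Complex.exp_add, Complex.ofReal_exp]
    ring
  · simp [Pi.single_eq_of_ne hi]

lemma frame_inr (σ : Finset F) (x θ : σ → ℝ) (j : σ) :
    frame σ x θ (Sum.inr j) = dg (at' σ θ) (Complex.I • E σ x j) := by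
  funext i
  rw [dg_apply]
  change (Pi.single (j : F) (Complex.I * Complex.exp (x j + θ j * Complex.I)) : F → ℂ) i = _
  unfold E
  by_cases hi : i = (j : F)
  · subst hi
    rw [Pi.single_eq_same, at_in, Complex.exp_add, Complex.ofReal_exp, Pi.smul_apply,
      Pi.single_eq_same, smul_eq_mul]
    ring
  · simp [Pi.single_eq_of_ne hi]

lemma IsPotential.cross (h : IsPotential ν K κ Ψ) {σ : Finset F} (hσ : σ ∈ K) (x : σ → ℝ)
    (i j : σ) : kg Ψ (zr σ x) (E σ x i) (Complex.I • E σ x j) = 0 := by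
  have hz := zr_mem σ hσ x
  have hKE : ∀ i j : σ, fderiv ℝ Ψ (zr σ x) (Kr (j : F) (E σ x i)) = 0 := by
    intro i j
    by_cases hij : i = j
    · subst hij
      have e : Kr (i : F) (E σ x i) = Kr (i : F) (zr σ x) := by
        rw [Kr_zr, Kr_apply]
        funext l
        by_cases hl : l = (i : F)
        · subst hl; simp [E]
        · simp [E, Pi.single_eq_of_ne hl]
      rw [e]
      exact h.rot (i : F) hz
    · have e : Kr (j : F) (E σ x i) = 0 := by
        rw [Kr_apply]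
        unfold E
        rw [Pi.single_eq_of_ne (fun h => hij (Subtype.ext h).symm)]
        simp
      rw [e, map_zero]
  have h1 : ∀ i j : σ, hess Ψ (zr σ x) (E σ x i) (Complex.I • E σ x j) = 0 := by
    intro i j
    have := h.lin (Kr (j : F)) 0 (fun z hz => h.rot (j : F) hz) hz (E σ x i)
    rw [hKE, Kr_zr, add_zero] at this
    exact this
  unfold kg
  rw [II, map_neg, h1 i j, h.symm hz (Complex.I • E σ x i), h1 j i]
  norm_num

lemma IsPotential.gram_det (h : IsPotential ν K κ Ψ) {σ : Finset F} (hσ : σ ∈ K) (x θ : σ → ℝ) :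
    √(gram Ψ σ x θ).det = |(A Ψ σ x).det| := by
  have h1 : gram Ψ σ x θ = Matrix.fromBlocks (A Ψ σ x) 0 0 (A Ψ σ x) := by
    ext a b
    have hk : ∀ u v : F → ℂ, kg Ψ (pt σ x θ) (dg (at' σ θ) u) (dg (at' σ θ) v)
        = kg Ψ (zr σ x) u v := by
      intro u v
      rw [pt_eq]
      exact h.kg_dg _ (at_norm σ θ) (zr_mem σ hσ x) u v
    rcases a with i | i <;> rcases b with j | j
    · simp only [gram, Matrix.of_apply, frame_inl, hk, Matrix.fromBlocks_apply₁₁, A]
    · simp only [gram, Matrix.of_apply, frame_inl, frame_inr, hk, Matrix.fromBlocks_apply₁₂,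
        h.cross hσ, Matrix.zero_apply]
    · simp only [gram, Matrix.of_apply, frame_inl, frame_inr, hk, Matrix.fromBlocks_apply₂₁,
        Matrix.zero_apply]
      rw [h.kg_symm (zr_mem σ hσ x), h.cross hσ]
    · simp only [gram, Matrix.of_apply, frame_inr, hk, Matrix.fromBlocks_apply₂₂, A, kg_II]
  rw [h1, Matrix.det_fromBlocks_zero₂₁, ← sq, Real.sqrt_sq_eq_abs]

/-- The volume. -/
lemma IsPotential.vol_eq (h : IsPotential ν K κ Ψ) {σ : Finset F} (hσ : σ ∈ K) :
    vol Ψ σ = ENNReal.ofReal ((2 * π) ^ σ.card) * ∫⁻ x, ENNReal.ofReal |(A Ψ σ x).det| := by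
  unfold vol
  rw [← lintegral_const_mul' _ _ ENNReal.ofReal_ne_top]
  congr 1
  funext x
  have h1 : ∀ θ, ENNReal.ofReal √(gram Ψ σ x θ).det = ENNReal.ofReal |(A Ψ σ x).det| := fun θ => by
    rw [h.gram_det hσ]
  simp only [h1]
  rw [setLIntegral_const, Real.volume_pi_Ioc, mul_comm]
  congr 1
  rw [Finset.prod_const, Finset.card_univ, Fintype.card_coe, sub_zero,
    ENNReal.ofReal_pow (by positivity)]

/-- The lower bound of the volume. -/
theorem IsPotential.vol_lower (h : IsPotential ν K κ Ψ) {σ : Finset F} (hσ : σ ∈ K) {c : ℝ}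
    (hlower : ∃ C : ℝ, ∀ x : σ → ℝ, ∃ M : ℝ, 0 ≤ M ∧ (∀ j, x j ≤ M) ∧ c * M - C ≤ Ψ (zr σ x))
    (hc : 0 < c) :
    ENNReal.ofReal (π ^ (2 * σ.card) * (c / 2) ^ σ.card)
      ≤ ENNReal.ofReal (π ^ σ.card * σ.card.factorial) * vol Ψ σ := by
  rw [h.vol_eq hσ]
  have h1 := h.int_lower hσ hlower hc
  have hpi := Real.pi_pos
  have hf : (0 : ℝ) < σ.card.factorial := by positivity
  have h2 := mul_le_mul_right h1
    (ENNReal.ofReal (π ^ σ.card * σ.card.factorial * ((2 * π) ^ σ.card / 4 ^ σ.card)))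
  refine le_trans (le_of_eq ?_) (h2.trans (le_of_eq ?_))
  · rw [← ENNReal.ofReal_mul (by positivity)]
    congr 1
    rw [div_pow, pow_mul, mul_pow]
    have h4 : (4 : ℝ) ^ σ.card = 2 ^ σ.card * 2 ^ σ.card := by
      rw [← mul_pow]; norm_num
    rw [h4, sq, mul_pow]
    field_simp
  · rw [← mul_assoc, ← mul_assoc, ← ENNReal.ofReal_mul (by positivity),
      ← ENNReal.ofReal_mul (by positivity)]
    congr 2
    field_simp

end Pool.Agent.TH432.TG
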