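import Pool.Agent.TH432.TG.Per
import Pool.Agent.TH432.TG.Vol2

set_option linter.unusedSectionVars false
set_option linter.unusedSimpArgs false

open Real Set MeasureTheory
open scoped ContDiff Topology

namespace Pool.Agent.TH432.TG

variable {F : Type} [Fintype F] [DecidableEq F] {n : ℕ} {ν : F → Fin n → ℤ} {K : Set (Finset F)}
  {κ : F → ℝ} {Ψ : (F → ℂ) → ℝ}

lemma sum_single (i : F) (k : Fin n) :
    ∑ l, (Pi.single i 1 : F → ℂ) l * (ν l k : ℂ) = ν i k := by
  rw [Finset.sum_eq_single i]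
  · rw [Pi.single_eq_same, one_mul]
  · intro l _ hl
    rw [Pi.single_eq_of_ne hl, zero_mul]
  · intro h; exact absurd (Finset.mem_univ i) h

/-- Each facet of a cone gives an edge. -/
lemma IsFan.edge (hF : IsFan ν K) {σ : Finset F} (hσ : σ ∈ K) (hcard : σ.card = n) (j : σ) :
    ∃ r a0, Edge ν K (j : F) r (σ.erase j) a0 := by
  obtain ⟨r, hr, hrK, m, hm, hrel⟩ := hF.wall σ hσ hcard j j.2
  have hmj : m j = 0 := hm _ (Finset.notMem_erase _ _)
  have hmr : m r = 0 := hm _ (fun h => hr (Finset.mem_of_mem_erase h))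
  have hjr : (j : F) ≠ r := fun h => hr (by rw [← h]; exact j.2)
  set a0 : F → ℝ := fun i => (Pi.single (j : F) 1 : F → ℝ) i + (Pi.single r 1 : F → ℝ) i - m i
    with ha0
  have hlie : (fun i => (a0 i : ℂ)) ∈ Lie ν := by
    intro k
    have h1 : ∀ i, (a0 i : ℂ) * (ν i k : ℂ) = (Pi.single (j : F) 1 : F → ℂ) i * (ν i k : ℂ)
        + (Pi.single r 1 : F → ℂ) i * (ν i k : ℂ) - (m i : ℂ) * (ν i k : ℂ) := by
      intro i
      have e1 : (((Pi.single (j : F) 1 : F → ℝ) i : ℝ) : ℂ) = (Pi.single (j : F) 1 : F → ℂ) i := by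
        by_cases hi : i = (j : F)
        · subst hi; simp
        · simp [Pi.single_eq_of_ne hi]
      have e2 : (((Pi.single r 1 : F → ℝ) i : ℝ) : ℂ) = (Pi.single r 1 : F → ℂ) i := by
        by_cases hi : i = r
        · subst hi; simp
        · simp [Pi.single_eq_of_ne hi]
      rw [ha0]
      simp only
      rw [Complex.ofReal_sub, Complex.ofReal_add, e1, e2, Complex.ofReal_intCast]
      ring
    simp only [h1]
    rw [Finset.sum_sub_distrib, Finset.sum_add_distrib, sum_single, sum_single]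
    have h2 : (ν j k : ℂ) + ν r k = ∑ i, (m i : ℂ) * ν i k := by
      have := congrArg (fun x : ℤ => (x : ℂ)) (hrel k)
      push_cast at this
      exact this
    rw [h2, sub_self]
  have ha0j : a0 j = 1 := by
    simp only [ha0, Pi.single_eq_same, Pi.single_eq_of_ne hjr, hmj]
    norm_num
  have ha0r : a0 r = 1 := by
    simp only [ha0, Pi.single_eq_same, Pi.single_eq_of_ne hjr.symm, hmr]
    norm_num
  have ha0s : ∀ i, i ≠ (j : F) → i ≠ r → i ∉ σ.erase j → a0 i = 0 := by
    intro i hj hr' hi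
    simp only [ha0, Pi.single_eq_of_ne hj, Pi.single_eq_of_ne hr', hm i hi]
    norm_num
  refine ⟨r, a0, hjr, Finset.notMem_erase _ _, fun h => hr (Finset.mem_of_mem_erase h), ?_, hrK,
    ha0j, ha0r, ha0s, hlie, ?_, ?_⟩
  · rw [Finset.insert_erase j.2]
    exact hσ
  · intro a ha hs
    have h1 : a + (-a r) • (fun i => (a0 i : ℂ)) ∈ Lie ν := Lie_add ha (Lie_smul hlie _)
    have h2 := hF.indep σ hσ hcard _ (fun i hi => by
      simp only [Pi.add_apply, Pi.smul_apply, smul_eq_mul]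
      have hj : i ≠ (j : F) := fun h => hi (by rw [h]; exact j.2)
      have hi' : i ∉ σ.erase j := fun h => hi (Finset.mem_of_mem_erase h)
      by_cases hir : i = r
      · subst hir
        rw [ha0r]
        simp
      · rw [hs i hj hir hi', ha0s i hj hir hi']
        simp) h1
    have h3 := congrFun h2 j
    simp only [Pi.add_apply, Pi.smul_apply, smul_eq_mul, ha0j, Pi.zero_apply, Complex.ofReal_one,
      mul_one] at h3
    linear_combination h3
  · intro s hsj hsr hsτ
    have hsσ : s ∉ σ := fun h => hsτ (Finset.mem_erase.mpr ⟨hsj, h⟩)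
    obtain ⟨m', hm', hrel'⟩ := hF.span σ hσ hcard (ν s)
    refine ⟨fun i => (Pi.single s 1 : F → ℂ) i - m' i, fun k => ?_, ?_, ?_, ?_⟩
    · simp only [sub_mul]
      rw [Finset.sum_sub_distrib, sum_single]
      have := congrArg (fun x : ℤ => (x : ℂ)) (hrel' k)
      push_cast at this
      rw [this, sub_self]
    · simp only [Pi.single_eq_same, hm' s hsσ]
      norm_num
    · simp only [Pi.single_eq_of_ne hsr.symm, hm' r hr]
      norm_num
    · intro i his hij hir hiτ
      have hiσ : i ∉ σ := fun h => hiτ (Finset.mem_erase.mpr ⟨hij, h⟩)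
      simp only [Pi.single_eq_of_ne his, hm' i hiσ]
      norm_num

/-- The main theorem. -/
theorem main (hn : 1 ≤ n) (hF : IsFan ν K) (h : IsPotential ν K κ Ψ) :
    ∃ (γ : ℝ → F → ℂ) (T : ℝ), 0 < T ∧ IsGeodesic K Ψ 1 γ ∧
    (∀ t, ∃ a ∈ Lie ν, γ (t + T) = fun i => Complex.exp (a i) * γ t i) ∧
    ∀ σ ∈ K, σ.card = n →
      ENNReal.ofReal (T ^ (2 * n)) ≤ ENNReal.ofReal (π ^ n * n.factorial) * vol Ψ σ := by
  classical
  -- the edges
  have hed := fun (x : {x : Finset F // x ∈ K ∧ x.card = n}) (j : x.1) =>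
    hF.edge x.2.1 x.2.2 j
  choose r a0 he using hed
  -- the shortest edge
  let X := Σ x : {x : Finset F // x ∈ K ∧ x.card = n}, x.1
  have hfin : Finite X := by
    have : Finite {x : Finset F // x ∈ K ∧ x.card = n} := inferInstance
    infer_instance
  have hne : Nonempty X := by
    obtain ⟨τ, hτ⟩ := hF.nonempty
    obtain ⟨σ, hσ, _, hc⟩ := hF.pure τ hτ
    have h1 : σ.Nonempty := by
      rw [← Finset.card_pos, hc]; exact hn
    obtain ⟨i, hi⟩ := h1
    exact ⟨⟨⟨σ, hσ, hc⟩, ⟨i, hi⟩⟩⟩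
  obtain ⟨y, hy⟩ := Finite.exists_min (fun x : X => len κ (a0 x.1 x.2))
  set c := len κ (a0 y.1 y.2) with hc
  obtain ⟨γ, T, hT, hgeo, hper, hle⟩ := short h (he y.1 y.2)
  refine ⟨γ, T, hT, hgeo, hper, fun σ hσ hcard => ?_⟩
  have hσne : σ.Nonempty := by
    rw [← Finset.card_pos, hcard]; exact hn
  have hlower := h.lower hσ hσne (c := c) (fun i =>
    ⟨r ⟨σ, hσ, hcard⟩ i, a0 ⟨σ, hσ, hcard⟩ i, he ⟨σ, hσ, hcard⟩ i, hy ⟨⟨σ, hσ, hcard⟩, i⟩⟩)
  have hv := h.vol_lower hσ hlower (len_pos h (he y.1 y.2))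
  rw [hcard] at hv
  refine le_trans (ENNReal.ofReal_le_ofReal ?_) hv
  rw [pow_mul, pow_mul, ← mul_pow]
  exact pow_le_pow_left₀ (by positivity) hle _

end Pool.Agent.TH432.TG
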