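import Pool.Agent.TH432.TG.Geo

set_option linter.unusedSectionVars false
set_option linter.unusedSimpArgs false

open Real Set MeasureTheory
open scoped ContDiff Topology

namespace Pool.Agent.TH432.TG

open Pool.Agent.H206R2

variable {F : Type} [Fintype F] [DecidableEq F] {n : ℕ} {ν : F → Fin n → ℤ} {K : Set (Finset F)}
  {κ : F → ℝ} {Ψ : (F → ℂ) → ℝ} {j r : F} {τ : Finset F} {a0 : F → ℝ}

lemma ph_add_int (h : IsPotential ν K κ Ψ) (e : Edge ν K j r τ a0) (x : ℝ) (k : ℤ) :
    ph h e (x + k * (2 * al Ψ j r τ (π / 2))) = ph h e x + k * π := by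
  have hL : 0 < al Ψ j r τ (π / 2) := (profile h e).pos
  have h1 : Function.Periodic (fun x => ph h e x - π * x / (2 * al Ψ j r τ (π / 2)))
      (2 * al Ψ j r τ (π / 2)) := by
    intro y
    have h2 := ph_L h e (-y)
    rw [ph_neg] at h2
    simp only
    rw [show y + 2 * al Ψ j r τ (π / 2) = 2 * al Ψ j r τ (π / 2) - -y by ring, h2]
    field_simp
    ring
  have h3 := h1.int_mul k x
  have h4 : π * (x + k * (2 * al Ψ j r τ (π / 2))) / (2 * al Ψ j r τ (π / 2))
      = π * x / (2 * al Ψ j r τ (π / 2)) + k * π := by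
    field_simp
  rw [h4] at h3
  linarith

lemma sin_cos_zero (h : IsPotential ν K κ Ψ) (e : Edge ν K j r τ a0) (x : ℝ)
    (hs : Real.sin (π * x / al Ψ j r τ (π / 2)) = 0) :
    Real.sin (ph h e x) = 0 ∨ Real.cos (ph h e x) = 0 := by
  have hL : 0 < al Ψ j r τ (π / 2) := (profile h e).pos
  obtain ⟨n, hn⟩ := Real.sin_eq_zero_iff.mp hs
  have hr : x = n * al Ψ j r τ (π / 2) := by
    have := Real.pi_pos
    field_simp at hn
    linarith
  rcases Int.even_or_odd' n with ⟨k, hk | hk⟩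
  · left
    have h1 : x = 0 + k * (2 * al Ψ j r τ (π / 2)) := by rw [hr, hk]; push_cast; ring
    rw [h1, ph_add_int, ph_zero, zero_add]
    exact Real.sin_int_mul_pi k
  · right
    have h1 : x = al Ψ j r τ (π / 2) + k * (2 * al Ψ j r τ (π / 2)) := by
      rw [hr, hk]; push_cast; ring
    rw [h1, ph_add_int, ph_al, Real.cos_add_int_mul_pi]
    simp

/-- a point of the line determines the homogeneous coordinates up to a factor -/
lemma proj_eq (h : IsPotential ν K κ Ψ) (e : Edge ν K j r τ a0) (x x' : ℝ) (U U' : ℂ)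
    (hU : ‖U‖ = 1) (hU' : ‖U'‖ = 1)
    (hc : Real.cos (π * x' / al Ψ j r τ (π / 2)) = Real.cos (π * x / al Ψ j r τ (π / 2)))
    (hs : (Real.sin (π * x' / al Ψ j r τ (π / 2)) : ℂ) * U'
      = (Real.sin (π * x / al Ψ j r τ (π / 2)) : ℂ) * U) :
    ∃ w : ℂ, w ≠ 0 ∧ (pp j r (ph h e x') U' : F → ℂ) = w • pp j r (ph h e x) U := by
  have hL : 0 < al Ψ j r τ (π / 2) := (profile h e).pos
  have hpi := Real.pi_pos
  have hU0 : U ≠ 0 := by
    intro h; rw [h] at hU; simp at hU
  have hU0' : U' ≠ 0 := by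
    intro h; rw [h] at hU'; simp at hU'
  -- reduction
  obtain ⟨k, s, hs1, hph, hsin⟩ : ∃ (k : ℤ) (s : ℝ), (s = 1 ∨ s = -1) ∧
      ph h e x' = s * ph h e x + k * π ∧
      Real.sin (π * x' / al Ψ j r τ (π / 2)) = s * Real.sin (π * x / al Ψ j r τ (π / 2)) := by
    obtain ⟨k, hk⟩ := Real.cos_eq_cos_iff.mp hc
    rcases hk with hk | hk
    · refine ⟨-k, 1, Or.inl rfl, ?_, ?_⟩
      · have h1 : x' = x + ((-k : ℤ) : ℝ) * (2 * al Ψ j r τ (π / 2)) := by
          field_simp at hk
          push_cast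
          linarith
        rw [h1, ph_add_int]
        ring
      · have h2 : π * x' / al Ψ j r τ (π / 2)
            = π * x / al Ψ j r τ (π / 2) + ((-k : ℤ) : ℝ) * (2 * π) := by
          push_cast
          linarith
        rw [h2, Real.sin_add_int_mul_two_pi]
        ring
    · refine ⟨k, -1, Or.inr rfl, ?_, ?_⟩
      · have h1 : x' = -x + (k : ℝ) * (2 * al Ψ j r τ (π / 2)) := by
          field_simp at hk
          linarith
        rw [h1, ph_add_int, ph_neg]
        ring
      · have h2 : π * x' / al Ψ j r τ (π / 2)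
            = -(π * x / al Ψ j r τ (π / 2)) + (k : ℝ) * (2 * π) := by
          linarith
        rw [h2, Real.sin_add_int_mul_two_pi, Real.sin_neg]
        ring
  have hcos' : Real.cos (ph h e x') = (-1) ^ k * Real.cos (ph h e x) := by
    rw [hph, Real.cos_add_int_mul_pi]
    rcases hs1 with rfl | rfl
    · rw [one_mul]
    · rw [neg_one_mul, Real.cos_neg]
  have hsin' : Real.sin (ph h e x') = (-1) ^ k * (s * Real.sin (ph h e x)) := by
    rw [hph, Real.sin_add_int_mul_pi]
    rcases hs1 with rfl | rfl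
    · rw [one_mul, one_mul]
    · rw [neg_one_mul, Real.sin_neg, neg_one_mul]
  have hs0 : (s : ℂ) ≠ 0 := by
    rcases hs1 with rfl | rfl <;> simp
  have hk0 : (((-1 : ℝ) ^ k : ℝ) : ℂ) ≠ 0 := by
    have : ((-1 : ℝ) ^ k : ℝ) ≠ 0 := zpow_ne_zero _ (by norm_num)
    exact_mod_cast this
  have hUU : U * (starRingEnd ℂ) U = 1 := by
    rw [Complex.mul_conj, Complex.normSq_eq_norm_sq, hU]
    norm_num
  have hUc : (starRingEnd ℂ) U ≠ 0 := right_ne_zero_of_mul (by rw [hUU]; exact one_ne_zero)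
  by_cases h0 : Real.sin (π * x / al Ψ j r τ (π / 2)) = 0
  · rcases sin_cos_zero h e x h0 with h1 | h1
    · refine ⟨((-1 : ℝ) ^ k : ℝ), hk0, ?_⟩
      unfold pp
      rw [hcos', hsin', h1]
      simp only [mul_zero, zero_smul, add_zero]
      funext i
      simp only [Pi.smul_apply, Complex.real_smul, smul_eq_mul]
      push_cast
      ring
    · refine ⟨((-1 : ℝ) ^ k : ℝ) * s * U' * (starRingEnd ℂ) U,
        mul_ne_zero (mul_ne_zero (mul_ne_zero hk0 hs0) hU0') hUc, ?_⟩
      unfold pp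
      rw [hcos', hsin', h1]
      simp only [mul_zero, zero_smul, zero_add]
      funext i
      simp only [Pi.smul_apply, Complex.real_smul, smul_eq_mul]
      push_cast
      linear_combination (-((-1 : ℂ) ^ k * s * U' * Complex.sin (ph h e x)
        * (ee j : F → ℂ) i)) * hUU
  · refine ⟨((-1 : ℝ) ^ k : ℝ), hk0, ?_⟩
    have hsU : (s : ℂ) * U' = U := by
      rw [hsin] at hs
      have h2 : (Real.sin (π * x / al Ψ j r τ (π / 2)) : ℂ) ≠ 0 := by exact_mod_cast h0
      apply mul_left_cancel₀ h2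
      rw [← hs]
      push_cast
      ring
    unfold pp
    rw [hcos', hsin']
    funext i
    simp only [Pi.add_apply, Pi.smul_apply, Complex.real_smul, smul_eq_mul]
    rw [← hsU]
    push_cast
    ring

/-- the two points are in the same orbit -/
lemma orbit_eq (e : Edge ν K j r τ a0) {φ φ' : ℝ} {U U' w : ℂ} (hw : w ≠ 0)
    (hpp : (pp j r φ' U' : F → ℂ) = w • pp j r φ U) :
    ∃ a ∈ Lie ν, p j r τ φ' U' = fun i => Complex.exp (a i) * p j r τ φ U i := by
  refine ⟨Complex.log w • fun i => (a0 i : ℂ), Lie_smul e.lie _, ?_⟩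
  funext i
  simp only [Pi.smul_apply, smul_eq_mul]
  have h1 := congrFun hpp i
  simp only [Pi.smul_apply, smul_eq_mul] at h1
  by_cases hj : i = j
  · subst hj
    rw [pp_j e, pp_j e] at h1
    rw [p_j e, p_j e, e.a0j, h1]
    simp [Complex.exp_log hw]
  · by_cases hr : i = r
    · subst hr
      rw [pp_r e, pp_r e] at h1
      rw [p_r e, p_r e, e.a0r, h1]
      simp [Complex.exp_log hw]
    · by_cases hi : i ∈ τ
      · rw [p_τ e _ _ hi, p_τ e _ _ hi, mul_zero]
      · rw [p_o _ _ hj hr hi, p_o _ _ hj hr hi, e.a0s i hj hr hi]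
        simp

/-- The closed geodesic on the line. -/
theorem short (h : IsPotential ν K κ Ψ) (e : Edge ν K j r τ a0) :
    ∃ (γ : ℝ → F → ℂ) (T : ℝ), 0 < T ∧ IsGeodesic K Ψ 1 γ ∧
    (∀ t, ∃ a ∈ Lie ν, γ (t + T) = fun i => Complex.exp (a i) * γ t i) ∧
    T ^ 2 ≤ π ^ 2 * (len κ a0 / 2) := by
  have hprof := profile h e
  obtain ⟨γ, T, hT, ⟨ρ, u, hr, hu, hnorm, hγ, q1, q2, q3⟩, hper, hle⟩ :=
    Rot.Main.short_geodesic hprof (le_refl 2)
  set a : ℝ → ℝ := fun t => u t 0 with ha
  set b : ℝ → ℝ := fun t => u t 1 with hb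
  have haC : ContDiff ℝ 2 a := (EuclideanSpace.proj (𝕜 := ℝ) (0 : Fin 2)).contDiff.comp hu
  have hbC : ContDiff ℝ 2 b := (EuclideanSpace.proj (𝕜 := ℝ) (1 : Fin 2)).contDiff.comp hu
  have du : ∀ t, HasDerivAt u (deriv u t) t := fun t => (hu.differentiable (by simp) t).hasDerivAt
  have du2 : ∀ t, HasDerivAt (deriv u) (deriv (deriv u) t) t := fun t =>
    ((cd_deriv hu).differentiable (by simp) t).hasDerivAt
  have da : ∀ t, HasDerivAt a (deriv u t 0) t := fun t =>
    (EuclideanSpace.proj (𝕜 := ℝ) (0 : Fin 2)).hasFDerivAt.comp_hasDerivAt t (du t)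
  have db : ∀ t, HasDerivAt b (deriv u t 1) t := fun t =>
    (EuclideanSpace.proj (𝕜 := ℝ) (1 : Fin 2)).hasFDerivAt.comp_hasDerivAt t (du t)
  have da2 : ∀ t, HasDerivAt (fun t => deriv u t 0) (deriv (deriv u) t 0) t := fun t =>
    (EuclideanSpace.proj (𝕜 := ℝ) (0 : Fin 2)).hasFDerivAt.comp_hasDerivAt t (du2 t)
  have db2 : ∀ t, HasDerivAt (fun t => deriv u t 1) (deriv (deriv u) t 1) t := fun t =>
    (EuclideanSpace.proj (𝕜 := ℝ) (1 : Fin 2)).hasFDerivAt.comp_hasDerivAt t (du2 t)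
  have hab : ∀ t, a t ^ 2 + b t ^ 2 = 1 := by
    intro t
    have h1 := EuclideanSpace.norm_sq_eq (u t)
    rw [hnorm, Fin.sum_univ_two, Real.norm_eq_abs, Real.norm_eq_abs, sq_abs, sq_abs] at h1
    rw [ha, hb]
    simp only
    linarith
  set om : ℝ → ℝ := fun t => a t * deriv u t 1 - b t * deriv u t 0 with hom
  have horth : ∀ t, a t * deriv u t 0 + b t * deriv u t 1 = 0 := by
    intro t
    have h1 := ((da t).pow 2).add ((db t).pow 2)
    have h2 : HasDerivAt (fun s => a s ^ 2 + b s ^ 2) 0 t := by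
      have : (fun s => a s ^ 2 + b s ^ 2) = fun _ => (1 : ℝ) := funext hab
      rw [this]; exact hasDerivAt_const _ _
    have h3 := h1.unique h2
    push_cast at h3
    simp only [pow_one] at h3
    linarith
  have hnu : ∀ t, ‖deriv u t‖ ^ 2 = om t ^ 2 := by
    intro t
    have h1 := EuclideanSpace.norm_sq_eq (deriv u t)
    rw [Fin.sum_univ_two, Real.norm_eq_abs, Real.norm_eq_abs, sq_abs, sq_abs] at h1
    rw [h1, hom]
    simp only
    have h2 := hab t
    have h3 := horth t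
    linear_combination (-(deriv u t 0 ^ 2 + deriv u t 1 ^ 2)) * h2
      + (a t * deriv u t 0 + b t * deriv u t 1) * h3
  have hom' : ∀ t, om t = a t * deriv b t - b t * deriv a t := by
    intro t
    rw [(da t).deriv, (db t).deriv]
  have e1 : ∀ t, deriv (deriv ρ) t = pf h e (ρ t) * deriv (pf h e) (ρ t) * om t ^ 2 := by
    intro t
    rw [q1, hnu]
  have e3 : ∀ t, deriv ρ t ^ 2 + pf h e (ρ t) ^ 2 * om t ^ 2 = 1 := by
    intro t
    have := q3 t
    rw [hnu] at this
    rw [this]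
    norm_num
  have dr : ∀ t, HasDerivAt ρ (deriv ρ t) t := fun t => (hr.differentiable (by simp) t).hasDerivAt
  have e2 : ∀ t, HasDerivAt (fun s => pf h e (ρ s) ^ 2 * om s) 0 t := by
    intro t
    have h1 : HasDerivAt (fun s => pf h e (ρ s)) (deriv (pf h e) (ρ t) * deriv ρ t) t :=
      (((pf_contDiff h e).differentiable (by simp) (ρ t)).hasDerivAt).comp t (dr t)
    have h2 : HasDerivAt om (a t * deriv (deriv u) t 1 - b t * deriv (deriv u) t 0) t := by
      refine (((da t).mul (db2 t)).sub ((db t).mul (da2 t))).congr_deriv ?_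
      ring
    refine ((h1.pow 2).mul h2).congr_deriv ?_
    have h3 := congrArg (fun v : EuclideanSpace ℝ (Fin 2) => v 0) (q2 t)
    have h4 := congrArg (fun v : EuclideanSpace ℝ (Fin 2) => v 1) (q2 t)
    simp only [PiLp.add_apply, PiLp.smul_apply, smul_eq_mul, PiLp.zero_apply] at h3 h4
    have e0 : om t = a t * deriv u t 1 - b t * deriv u t 0 := rfl
    have ea : a t = u t 0 := rfl
    have eb : b t = u t 1 := rfl
    rw [e0, ea, eb]
    simp only [Pi.pow_apply]
    push_cast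
    linear_combination (pf h e (ρ t) * u t 0) * h4 - (pf h e (ρ t) * u t 1) * h3
  have hgeo := geo h e ρ a b om hr haC hbC hab hom' e1 e2 e3
  have hUn : ∀ t, ‖(a t : ℂ) + b t * Complex.I‖ = 1 := by
    intro t
    rw [Complex.norm_add_mul_I, hab, Real.sqrt_one]
  refine ⟨_, T, hT, hgeo, fun t => ?_, ?_⟩
  · have h1 := hper t
    rw [hγ, hγ] at h1
    unfold Rot.polar at h1
    have h2 := congrArg Prod.fst h1
    have h3 := congrArg Prod.snd h1
    simp only at h2 h3
    have h4 := congrArg (fun v : EuclideanSpace ℝ (Fin 2) => v 0) h2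
    have h5 := congrArg (fun v : EuclideanSpace ℝ (Fin 2) => v 1) h2
    simp only [PiLp.smul_apply, smul_eq_mul] at h4 h5
    obtain ⟨w, hw, hpp⟩ := proj_eq h e (ρ t) (ρ (t + T)) _ _ (hUn t) (hUn (t + T)) h3 (by
      have ea : ∀ t, a t = u t 0 := fun _ => rfl
      have eb : ∀ t, b t = u t 1 := fun _ => rfl
      rw [ea, eb, ea, eb]
      have h4' : (Real.sin (π * ρ (t + T) / al Ψ j r τ (π / 2)) : ℂ) * (u (t + T) 0 : ℂ)
          = (Real.sin (π * ρ t / al Ψ j r τ (π / 2)) : ℂ) * (u t 0 : ℂ) := by exact_mod_cast h4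
      have h5' : (Real.sin (π * ρ (t + T) / al Ψ j r τ (π / 2)) : ℂ) * (u (t + T) 1 : ℂ)
          = (Real.sin (π * ρ t / al Ψ j r τ (π / 2)) : ℂ) * (u t 1 : ℂ) := by exact_mod_cast h5
      linear_combination h4' + Complex.I * h5')
    exact orbit_eq e hw hpp
  · have hint := integral_pf h e
    simp only [show (2 - 1 : ℕ) = 1 from rfl, pow_one] at hle
    rw [hint, integral_sin, Real.cos_zero, Real.cos_pi] at hle
    linarith

end Pool.Agent.TH432.TG
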